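import Pool.Agent.SM2.St2
import Pool.Agent.SM3.St

/-!
# MP_e40716_gt (SM5): the conclusions
-/

set_option autoImplicit false

noncomputable section

open Pool.Agent.Lib25 Pool.Agent.KM Pool.Agent.SM1 Pool.Agent.SM2 Pool.Agent.SM3

namespace Pool.Agent.SM5

universe u v

/-- The group of functions on `Hom(G, ℤ)` generated by the functions `f ↦ f(c) e`, where `e ∈ K_{-1}(ℤ[G])` is in
the image of `K_{-1}(ℤ[H])`, `H ≤ G` finite, and `c` is in the centraliser of `H`. -/
def Cap (G : Type u) [Group G] :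
    AddSubgroup ((G →* Multiplicative ℤ) → KNegOne (MonoidAlgebra ℤ G)) :=
  AddSubgroup.closure {v | ∃ (H : Subgroup G) (_ : Finite H) (c : G)
    (e : KNegOne (MonoidAlgebra ℤ H)), (∀ x ∈ H, c * x = x * c) ∧
      v = fun f => Multiplicative.toAdd (f c) • Kg H.subtype e}

/-- Some `n x`, `n > 0`, and an element `asm s` have the same image in `K_{-1}(ℤ[Q])`. -/
def SeenNeg {G : Type u} [Group G] {Q : Type v} [Group Q] (π : G →* Q)
    (x : KNegOne (MonoidAlgebra ℤ G)) : Prop :=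
  ∃ (n : ℕ) (s : Src G), 0 < n ∧ Kg π (n • x) = Kg π (asm G s)

/-- For all `f_1, …, f_b : G → ℤ` there are `n > 0` and `v` in `Cap G` such that `n (ddf f_i z)` and `v(f_i)`
have the same image in `K_{-1}(ℤ[Q])` for all `i`. -/
def SeenZero {G : Type u} [Group G] {Q : Type v} [Group Q] (π : G →* Q)
    (z : K0 (MonoidAlgebra ℤ G)) : Prop :=
  ∀ (b : ℕ) (F : Fin b → G →* Multiplicative ℤ), ∃ n : ℕ, 0 < n ∧ ∃ v ∈ Cap G,
    ∀ i, Kg π (n • ddf (F i) z) = Kg π (v (F i))

/-- There are `n > 0` and `s ∈ Src G` such that for ALL finite groups `Q` of order prime to `M` and all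
`π : G → Q` the image of `n x - asm s` in `K_{-1}(ℤ[Q])` is a torsion element. -/
def OneNeg {G : Type u} [Group G] (M : ℕ) (x : KNegOne (MonoidAlgebra ℤ G)) : Prop :=
  ∃ (n : ℕ) (s : Src G), 0 < n ∧ ∀ (Q : Type v) [Group Q] [Finite Q] (π : G →* Q),
    M.Coprime (Nat.card Q) → ∃ k : ℕ, 0 < k ∧ k • Kg π (n • x - asm G s) = 0

/-- There are `n > 0` and `v` in `Cap G` such that for ALL `f : G → ℤ`, all finite groups `Q` of order prime
to `M` and all `π : G → Q` the image of `n (ddf f z) - v(f)` in `K_{-1}(ℤ[Q])` is a torsion element. -/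
def OneZero {G : Type u} [Group G] (M : ℕ) (z : K0 (MonoidAlgebra ℤ G)) : Prop :=
  ∃ n : ℕ, 0 < n ∧ ∃ v ∈ Cap G, ∀ (Q : Type v) [Group Q] [Finite Q] (π : G →* Q)
    (f : G →* Multiplicative ℤ), M.Coprime (Nat.card Q) → ∃ k : ℕ, 0 < k ∧
      k • Kg π (n • ddf f z - v f) = 0

/-- Finitely many conjugacy classes of elements of finite order. -/
def FewTors (G : Type u) [Group G] : Prop :=
  ∃ T : Set G, T.Finite ∧ ∀ g : G, IsOfFinOrder g → ∃ t ∈ T, IsConj t g

end Pool.Agent.SM5
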