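import Pool.Agent.SM5.Fam
import Pool.Agent.PPR.MOB
import Pool.Agent.PPR.GRP
import Pool.Agent.PPR.EXI
import Pool.Agent.PPR.COM
import Pool.Agent.PPR.ADJ
import Pool.Agent.PPR.SUP
import Pool.Agent.PPR.GEN
import Pool.Agent.PPR.REP

/-!
# MP_e40716_gt (SM5): finite groups of order prime to a number
-/

set_option autoImplicit false
set_option linter.unusedSectionVars false

open Matrix Pool.Agent.Lib25 Pool.Agent.KM Pool.Agent.SM1 Pool.Agent.SM2 Pool.Agent.SM3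
open Pool.Agent.SM4
open Pool.Agent.SUR (ZM)

noncomputable section

namespace Pool.Agent.SM5

universe u v w

open BAS FAM

namespace PRI

theorem addH {F : Type u} [Field F] {S : Set F} (hS : S.Finite) :
    ∃ M : ℕ, 0 < M ∧ ∀ N : ℕ, M.Coprime N → CharZero F → AddH (Subring.closure S) N := by
  by_cases hF : CharZero F
  · obtain ⟨M, hM, hψ⟩ := Pool.Agent.SUR.t_NNF F S hS
    refine ⟨M, hM, fun N hN _ a ha => ?_⟩
    obtain ⟨ψ, h1⟩ := hψ a.1 a.2 (fun h => ha (Subtype.ext h))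
    exact ⟨M, ψ, hM, hN, h1 a.2⟩
  · exact ⟨1, one_pos, fun N _ h => absurd h hF⟩

end PRI

/-- Degree `-1`. -/
theorem x_prime {G : Type u} [Group G] (h : LCR G) : SurjSeenPrime.{u, v} G := by
  intro x
  obtain ⟨G0, hG0, h0⟩ := t_COL x
  obtain ⟨G1, hle, F, hF, S, n, hS, hn, hG⟩ := h G0 hG0
  obtain ⟨x0, hx0⟩ := h0 G1 hle
  obtain ⟨M, hM, hA⟩ := PRI.addH hS
  refine ⟨M, hM, fun Q _ _ π hMQ => ?_⟩
  have hZ : ZW (π.comp G1.subtype) (bd n) := by
    intro g hg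
    exact cw_dvd (orderOf_dvd_natCard _) (cw_of_cx hS hn (hA _ hMQ) (hG g (hg g rfl)))
  obtain ⟨m, s, hm, hs⟩ := fin_zw (π.comp G1.subtype) _ hZ x0
  obtain ⟨t, ht⟩ := FIN2.asm_sub G1 s
  refine ⟨m, t, hm, ?_⟩
  rw [map_nsmul, ht, ← hx0, Kg_comp, Kg_comp]
  exact hs

/-- Degree `0`. -/
theorem z_prime {G : Type u} [Group G] (h : LCR G) : K0SeenPrime.{u, v} G := by
  intro z
  obtain ⟨G0, hG0, h0⟩ := t_COL0 z
  obtain ⟨G1, hle, F, hF, S, n, hS, hn, hG⟩ := h G0 hG0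
  obtain ⟨z0, hz0⟩ := h0 G1 hle
  obtain ⟨M, hM, hA⟩ := PRI.addH hS
  refine ⟨M, hM, fun Q _ _ π f hMQ => ?_⟩
  have hZ : ZW4 (π.comp G1.subtype) (f.comp G1.subtype) (bd n) := by
    intro g hg
    by_cases hfin : IsOfFinOrder g
    · right
      intro c hc
      by_contra hfc
      exact hg ⟨g, c, hfin, hc, hfc, rfl⟩
    · left
      exact cw_dvd (orderOf_dvd_natCard _) (cw_of_cx hS hn (hA _ hMQ) (hG g hfin))
  obtain ⟨m, hm, hs⟩ := fin_zw4 (π.comp G1.subtype) (f.comp G1.subtype) _ hZ z0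
  refine ⟨m, hm, ?_⟩
  have h1 := FIN4.finF_sub π f G1 hs
  have h2 : m • Kg (π.comp G1.subtype) (ddf (f.comp G1.subtype) z0) = m • Kg π (ddf f z) := by
    rw [← hz0, FIN4.ddf_nat, Kg_comp]
  rw [h2] at h1
  exact h1

/-- Linear groups. -/
theorem lcr_linear {F : Type u} [Field F] {n : ℕ} (G : Subgroup (GL (Fin n) F)) : LCR G := by
  intro G0 hG0
  obtain ⟨S, hS, -, hρ⟩ := t_LNR F n ⊤ G (fun _ _ _ _ => Subring.mem_top _) G0 hG0
  rcases Nat.eq_zero_or_pos n with hn | hn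
  · subst hn
    refine ⟨G0, le_rfl, F, inferInstance, S, 1, hS, one_pos, fun g hg => ?_⟩
    obtain ⟨ρ, h1⟩ := hρ g hg
    exact absurd (by rw [Subsingleton.elim (ρ (cel g)) 1]; exact IsOfFinOrder.one) h1
  · refine ⟨G0, le_rfl, F, inferInstance, S, n, hS, hn, fun g hg => ?_⟩
    obtain ⟨ρ, h1⟩ := hρ g hg
    exact Or.inr ⟨n, ρ, Or.inl rfl, h1⟩

/-- Groups of piecewise projective homeomorphisms of the line. -/
theorem lcr_pp (G : Subgroup (ℝ ≃o ℝ)) (hG : ∀ f ∈ G, IsPP f) : LCR G := by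
  intro G0 hG0
  let e : G0 ≃* G0.map G.subtype := G0.equivMapOfInjective G.subtype G.subtype_injective
  have h1 : (G0.map G.subtype).FG := by
    rw [← Group.fg_iff_subgroup_fg] at hG0 ⊢
    have := hG0
    exact Group.fg_of_surjective (f := e.toMonoidHom) (MulEquiv.surjective _)
  have hR : Pool.Agent.PPR.s_REP := Pool.Agent.PPR.t_REP
    (Pool.Agent.PPR.t_GEN (Pool.Agent.PPR.t_EXI Pool.Agent.PPR.t_MOB)
      (Pool.Agent.PPR.t_COM Pool.Agent.PPR.t_MOB) (Pool.Agent.PPR.t_GRP Pool.Agent.PPR.t_MOB))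
    (Pool.Agent.PPR.t_COM Pool.Agent.PPR.t_MOB) Pool.Agent.PPR.t_ADJ Pool.Agent.PPR.t_SUP
  obtain ⟨S, hS, h⟩ := hR (G0.map G.subtype) h1 (by
    rintro _ ⟨f, _, rfl⟩
    exact hG _ f.2)
  refine ⟨G0, le_rfl, ℝ, inferInstance, S, 4, hS, by norm_num, fun g hg => ?_⟩
  have hg' : e g ≠ 1 := fun h1 => hg (by
    rw [(MulEquiv.map_eq_one_iff e).1 h1]
    exact IsOfFinOrder.one)
  obtain ⟨ρ, h2, h3⟩ := h (e g) hg'
  let c : Subgroup.centralizer {g} →* Subgroup.centralizer {e g} :=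
    (e.toMonoidHom.comp (Subgroup.centralizer {g}).subtype).codRestrict _ (fun z => by
      have hz := Subgroup.mem_centralizer_singleton_iff.1 z.2
      refine Subgroup.mem_centralizer_singleton_iff.2 ?_
      change e z.1 * e g = e g * e z.1
      rw [← map_mul, ← map_mul, hz])
  exact Or.inr ⟨4, res _ (ρ.comp c) (fun z i j => h2 (c z) i j), Or.inl rfl,
    res_fin _ _ _ _ h3⟩

end Pool.Agent.SM5
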