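import Pool.Agent.SM5.St2
import Pool.Agent.SM5.Cap
import Pool.Agent.SM5.Prime

/-!
# MP_e40716_gt (SM5): degree `0`, several homomorphisms to `ℤ` at once, all homomorphisms to finite groups
-/

set_option autoImplicit false
set_option linter.unusedSectionVars false

open Matrix Pool.Agent.Lib25 Pool.Agent.KM Pool.Agent.SM1 Pool.Agent.SM2 Pool.Agent.SM3
open Pool.Agent.SM4

noncomputable section

namespace Pool.Agent.SM5

universe u v w

namespace FIN5

/-- `UF` of the corestriction. -/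
theorem uf_range {G : Type u} [Group G] {Q : Type v} [Group Q] (π : G →* Q) {b : ℕ}
    (F : Fin b → G →* Multiplicative ℤ) :
    (UF π.rangeRestrict F).map ((Kg π.range.subtype).compLeft (Fin b)) ≤ UF π F := by
  rw [UF, AddMonoidHom.map_closure, AddSubgroup.closure_le]
  rintro _ ⟨_, ⟨H, hH, c, e, hc, rfl⟩, rfl⟩
  refine AddSubgroup.subset_closure ⟨H, hH, c, e, hc, ?_⟩
  funext i
  change Kg π.range.subtype (_ • Kg (π.rangeRestrict.comp H.subtype) e) = _
  rw [map_zsmul, Kg_comp]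
  rfl

/-- `UF` of a subgroup. -/
theorem uf_sub {G : Type u} [Group G] {Q : Type v} [Group Q] (π : G →* Q) {b : ℕ}
    (F : Fin b → G →* Multiplicative ℤ) (G1 : Subgroup G) :
    UF (π.comp G1.subtype) (fun i => (F i).comp G1.subtype) ≤ UF π F := by
  rw [UF, AddSubgroup.closure_le]
  rintro _ ⟨H, hH, c, e, hc, rfl⟩
  have hfin : Finite (H.map G1.subtype) :=
    Set.Finite.to_subtype (Set.Finite.image _ (Set.toFinite (H : Set G1)))
  have hc' : ∀ x ∈ H.map G1.subtype, (c : G) * x = x * c := by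
    rintro _ ⟨x, hx, rfl⟩
    exact congrArg Subtype.val (hc x hx)
  refine AddSubgroup.subset_closure ⟨H.map G1.subtype, hfin, (c : G),
    Kg ((G1.subtype.comp H.subtype).codRestrict (H.map G1.subtype)
      (fun x => ⟨(x : G1), x.2, rfl⟩)) e, hc', ?_⟩
  funext i
  rw [Kg_comp]
  rfl

/-- From a subgroup to the group. -/
theorem of_sub (hFNS : S_FNS5.{u, v}) {G : Type u} [Group G] {Q : Type v} [Group Q] [Finite Q]
    (π : G →* Q) (G1 : Subgroup G) (r : ℕ)
    (hZ : ∀ g : G1, ¬IsOfFinOrder g → ∃ M : ℕ, 0 < M ∧ M.Coprime (Nat.card Q) ∧ CW M r (cel g))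
    {b : ℕ} (F : Fin b → G →* Multiplicative ℤ) (z1 : K0 (MonoidAlgebra ℤ G1)) :
    ∃ n : ℕ, 0 < n ∧ (fun i => n • Kg π (ddf (F i) (K0.map (grm G1.subtype) z1))) ∈ UF π F := by
  have hZ' : ZWA (π.comp G1.subtype).rangeRestrict r := by
    intro g hg
    refine BAS.cw_dvd ?_ (hZ g hg)
    have h1 : orderOf ((π.comp G1.subtype).rangeRestrict g) = orderOf (π g) :=
      (Subgroup.orderOf_coe ((π.comp G1.subtype).rangeRestrict g)).symm
    rw [h1]
    exact orderOf_dvd_natCard _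
  obtain ⟨m, hm, hs⟩ := hFNS (π.comp G1.subtype).rangeRestrict
    (π.comp G1.subtype).rangeRestrict_surjective (fun i => (F i).comp G1.subtype) _ hZ' z1
  refine ⟨m, hm, ?_⟩
  have h1 := uf_sub π F G1 (uf_range (π.comp G1.subtype) (fun i => (F i).comp G1.subtype)
    ⟨_, hs, rfl⟩)
  refine (congrArg (· ∈ UF π F) ?_).mp h1
  funext i
  change Kg (π.comp G1.subtype).range.subtype
    (m • Kg (π.comp G1.subtype).rangeRestrict (ddf ((F i).comp G1.subtype) z1)) = _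
  rw [map_nsmul, Kg_comp, FIN4.ddf_nat, Kg_comp]
  rfl

/-- the evaluation at `F` -/
def ev {G : Type u} [Group G] {Q : Type v} [Group Q] (π : G →* Q) {b : ℕ}
    (F : Fin b → G →* Multiplicative ℤ) :
    ((G →* Multiplicative ℤ) → KNegOne (MonoidAlgebra ℤ G)) →+
      (Fin b → KNegOne (MonoidAlgebra ℤ Q)) where
  toFun v := fun i => Kg π (v (F i))
  map_zero' := by
    funext i
    exact map_zero (Kg π)
  map_add' v w := by
    funext i
    exact map_add (Kg π) _ _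

theorem uf_cap {G : Type u} [Group G] {Q : Type v} [Group Q] (π : G →* Q) {b : ℕ}
    (F : Fin b → G →* Multiplicative ℤ) : UF π F = (Cap G).map (ev π F) := by
  rw [UF, Cap, AddMonoidHom.map_closure]
  congr 1
  ext w
  constructor
  · rintro ⟨H, hH, c, e, hc, rfl⟩
    refine ⟨_, ⟨H, hH, c, e, hc, rfl⟩, ?_⟩
    funext i
    change Kg π (_ • Kg H.subtype e) = _
    rw [map_zsmul, Kg_comp]
  · rintro ⟨_, ⟨H, hH, c, e, hc, rfl⟩, rfl⟩
    refine ⟨H, hH, c, e, hc, ?_⟩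
    funext i
    change Kg π (_ • Kg H.subtype e) = _
    rw [map_zsmul, Kg_comp]

theorem seen_of {G : Type u} [Group G] {Q : Type v} [Group Q] (π : G →* Q)
    (z : K0 (MonoidAlgebra ℤ G)) (h : ∀ (b : ℕ) (F : Fin b → G →* Multiplicative ℤ),
      ∃ n : ℕ, 0 < n ∧ (fun i => n • Kg π (ddf (F i) z)) ∈ UF π F) : SeenZero π z := by
  intro b F
  obtain ⟨n, hn, hs⟩ := h b F
  rw [uf_cap] at hs
  obtain ⟨v, hv, hvs⟩ := hs
  refine ⟨n, hn, v, hv, fun i => ?_⟩
  rw [map_nsmul]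
  exact (congrFun hvs i).symm

end FIN5

open FIN5 BAS

/-- Degree `-1`. -/
theorem xx_neg {G : Type u} [Group G] {Q : Type v} [Group Q] [Finite Q] (h : LCX (Nat.card Q) G)
    (π : G →* Q) (x : KNegOne (MonoidAlgebra ℤ G)) : SeenNeg π x := x_neg h π x

/-- Degree `0`. -/
theorem xx_zero (hFNS : S_FNS5.{u, v}) {G : Type u} [Group G] {Q : Type v} [Group Q] [Finite Q]
    (h : LCX (Nat.card Q) G) (π : G →* Q) (z : K0 (MonoidAlgebra ℤ G)) : SeenZero π z := by
  obtain ⟨G0, hG0, h0⟩ := t_COL0 z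
  obtain ⟨G1, hle, n, hn, hG⟩ := h G0 hG0
  obtain ⟨z1, rfl⟩ := h0 G1 hle
  refine seen_of π _ fun b F => of_sub hFNS π G1 (bd n) (fun g hg => ?_) F z1
  obtain ⟨F, hF, S, hS, hA, hc⟩ := hG g hg
  exact cw_of_cx hS hn (fun _ => hA) hc

/-- Degree `0`, orders prime to a number. -/
theorem xx_zero_prime (hFNS : S_FNS5.{u, v}) {G : Type u} [Group G] (h : LCR G)
    (z : K0 (MonoidAlgebra ℤ G)) : ∃ M : ℕ, 0 < M ∧ ∀ (Q : Type v) [Group Q] [Finite Q]
      (π : G →* Q), M.Coprime (Nat.card Q) → SeenZero π z := by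
  obtain ⟨G0, hG0, h0⟩ := t_COL0 z
  obtain ⟨G1, hle, F, hF, S, n, hS, hn, hG⟩ := h G0 hG0
  obtain ⟨z1, rfl⟩ := h0 G1 hle
  obtain ⟨M, hM, hA⟩ := PRI.addH hS
  refine ⟨M, hM, fun Q _ _ π hMQ => ?_⟩
  exact seen_of π _ fun b F' => of_sub hFNS π G1 (bd n)
    (fun g hg => cw_of_cx hS hn (hA _ hMQ) (hG g hg)) F' z1

end Pool.Agent.SM5
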