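import Pool.Agent.SM5.Base
import Pool.Agent.SM5.Cap

/-!
# MP_e40716_gt (SM5): one element of the source for all finite quotients
-/

set_option autoImplicit false
set_option linter.unusedSectionVars false

open Matrix Pool.Agent.Lib25 Pool.Agent.KM Pool.Agent.SM1 Pool.Agent.SM2 Pool.Agent.SM3
open Pool.Agent.SM4

noncomputable section

namespace Pool.Agent.SM5

universe u v w

namespace ONE

/-- integral vectors in the rational span of a group of integral vectors -/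
theorem span_int {κ : Type w} (N : AddSubgroup (κ → ℤ)) (v : κ → ℚ)
    (hv : v ∈ Submodule.span ℚ {w : κ → ℚ | ∃ b ∈ N, w = fun i => (b i : ℚ)}) :
    ∃ (m : ℕ) (b : κ → ℤ), 0 < m ∧ b ∈ N ∧ ∀ i, (b i : ℚ) = m * v i := by
  induction hv using Submodule.span_induction with
  | mem w hw =>
    obtain ⟨b, hb, rfl⟩ := hw
    exact ⟨1, b, one_pos, hb, fun i => by rw [Nat.cast_one, one_mul]⟩
  | zero =>
    exact ⟨1, 0, one_pos, N.zero_mem, fun i => by
      rw [Pi.zero_apply, Pi.zero_apply, Int.cast_zero, mul_zero]⟩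
  | add v w _ _ hv hw =>
    obtain ⟨m, b, hm, hb, h1⟩ := hv
    obtain ⟨n, c, hn, hc, h2⟩ := hw
    refine ⟨m * n, n • b + m • c, Nat.mul_pos hm hn,
      N.add_mem (N.nsmul_mem hb n) (N.nsmul_mem hc m), fun i => ?_⟩
    rw [Pi.add_apply, Pi.smul_apply, Pi.smul_apply, Pi.add_apply, nsmul_eq_mul, nsmul_eq_mul]
    push_cast
    rw [h1, h2]
    ring
  | smul q v _ hv =>
    obtain ⟨m, b, hm, hb, h1⟩ := hv
    refine ⟨m * q.den, q.num • b, Nat.mul_pos hm q.den_pos, N.zsmul_mem hb _, fun i => ?_⟩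
    rw [Pi.smul_apply, Pi.smul_apply, zsmul_eq_mul, smul_eq_mul]
    push_cast
    rw [h1]
    have h2 : (q.num : ℚ) = q * q.den := (Rat.mul_den_eq_num q).symm
    rw [h2]
    ring

/-- A relation modulo one member of a directed family of saturated subgroups. -/
theorem dir {κ : Type w} [Fintype κ] {X : Type u} [AddCommGroup X] (y : κ → X) {ι : Type v}
    [Nonempty ι] (V : ι → AddSubgroup X)
    (hsat : ∀ (i : ι) (k : ℕ) (x : X), 0 < k → k • x ∈ V i → x ∈ V i)
    (hdir : ∀ i j : ι, ∃ k : ι, V k ≤ V i ∧ V k ≤ V j) :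
    ∃ i0 : ι, ∀ b : κ → ℤ, ∑ j, b j • y j ∈ V i0 → ∀ i, ∑ j, b j • y j ∈ V i := by
  classical
  let N : ι → AddSubgroup (κ → ℤ) := fun i =>
    (V i).comap
      { toFun := fun b => ∑ j, b j • y j
        map_zero' := by simp
        map_add' := fun a b => by
          rw [← Finset.sum_add_distrib]
          exact Finset.sum_congr rfl fun j _ => add_smul _ _ _ }
  have hN : ∀ i b, b ∈ N i ↔ ∑ j, b j • y j ∈ V i := fun i b => Iff.rfl
  let W : ι → Submodule ℚ (κ → ℚ) := fun i =>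
    Submodule.span ℚ {w : κ → ℚ | ∃ b ∈ N i, w = fun j => (b j : ℚ)}
  have hmono : ∀ i j, V i ≤ V j → W i ≤ W j := by
    intro i j h
    refine Submodule.span_mono ?_
    rintro w ⟨b, hb, rfl⟩
    exact ⟨b, (hN j b).2 (h ((hN i b).1 hb)), rfl⟩
  obtain ⟨_, ⟨i0, rfl⟩, hmin⟩ := WellFounded.has_min
    (wellFounded_lt : WellFounded (fun a b : Submodule ℚ (κ → ℚ) => a < b)) (Set.range W)
    (Set.range_nonempty W)
  refine ⟨i0, fun b hb i => ?_⟩
  obtain ⟨k, hk0, hki⟩ := hdir i0 i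
  have h1 : W k = W i0 := by
    by_contra hne
    exact hmin (W k) ⟨k, rfl⟩ (lt_of_le_of_ne (hmono k i0 hk0) hne)
  have h2 : (fun j => (b j : ℚ)) ∈ W i := by
    refine hmono k i hki ?_
    rw [h1]
    exact Submodule.subset_span ⟨b, (hN i0 b).2 hb, rfl⟩
  obtain ⟨m, c, hm, hc, hcb⟩ := span_int (N i) _ h2
  have h3 : c = m • b := by
    funext j
    have h4 := hcb j
    rw [Pi.smul_apply, nsmul_eq_mul]
    exact_mod_cast h4
  rw [h3] at hc
  have h5 := (hN i _).1 hc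
  refine hsat i m _ hm ?_
  rw [Finset.smul_sum]
  refine (congrArg (· ∈ V i) (Finset.sum_congr rfl fun j _ => ?_)).mp h5
  rw [Pi.smul_apply, smul_assoc]

/-- One element for a directed family. -/
theorem dir_one {S : Type u} [AddCommGroup S] {X : Type u} [AddCommGroup X] (a : S →+ X)
    (U : AddSubgroup S) (E : Set S) (hE : E.Finite)
    (hgen : ∀ s ∈ U, ∃ m : ℕ, 0 < m ∧ m • s ∈ AddSubgroup.closure E) (x : X) {ι : Type v}
    [Nonempty ι] (V : ι → AddSubgroup X)
    (hsat : ∀ (i : ι) (k : ℕ) (x : X), 0 < k → k • x ∈ V i → x ∈ V i)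
    (hdir : ∀ i j : ι, ∃ k : ι, V k ≤ V i ∧ V k ≤ V j)
    (h : ∀ i, ∃ (n : ℕ) (s : S), 0 < n ∧ s ∈ U ∧ n • x - a s ∈ V i) :
    ∃ (n : ℕ) (s : S), 0 < n ∧ s ∈ U ∧ ∀ i, n • x - a s ∈ V i := by
  classical
  have := hE.fintype
  let y : Option E → X := fun j => j.elim x fun e => a e.1
  obtain ⟨i0, hi0⟩ := dir y V hsat hdir
  obtain ⟨n, s, hn, hs, hx⟩ := h i0
  obtain ⟨m, hm, hms⟩ := hgen s hs
  have h1 : m • s ∈ Submodule.span ℤ (Set.range fun e : E => e.1) := by
    rw [Subtype.range_coe]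
    rw [← Submodule.mem_toAddSubgroup, Submodule.span_int_eq_addSubgroupClosure]
    exact hms
  obtain ⟨c, hc⟩ := (Submodule.mem_span_range_iff_exists_fun ℤ).1 h1
  let b : Option E → ℤ := fun j => j.elim ((m * n : ℕ) : ℤ) fun e => -c e
  have h2 : ∑ j, b j • y j = (m * n) • x - a (m • s) := by
    rw [Fintype.sum_option]
    change ((m * n : ℕ) : ℤ) • x + ∑ e : E, (-c e) • a e.1 = _
    rw [natCast_zsmul, ← hc, map_sum, sub_eq_add_neg, ← Finset.sum_neg_distrib]
    congr 1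
    refine Finset.sum_congr rfl fun e _ => ?_
    rw [map_zsmul, neg_smul]
  have h3 : ∑ j, b j • y j ∈ V i0 := by
    rw [h2, map_nsmul, mul_smul, ← smul_sub]
    exact (V i0).nsmul_mem hx m
  refine ⟨m * n, m • s, Nat.mul_pos hm hn, U.nsmul_mem hs m, fun i => ?_⟩
  rw [← h2]
  exact hi0 b h3 i

/-- The homomorphisms from `G` to finite groups of order prime to `M`. -/
structure FQ (M : ℕ) (G : Type u) [Group G] : Type (max u (v + 1)) where
  /-- the finite group -/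
  Q : Type v
  [grp : Group Q]
  [fin : Finite Q]
  /-- the homomorphism -/
  π : G →* Q
  /-- the order is prime to `M` -/
  cop : M.Coprime (Nat.card Q)

attribute [instance] FQ.grp FQ.fin

/-- the elements whose images are torsion elements -/
def VQ {M : ℕ} {G : Type u} [Group G] (i : FQ.{u, v} M G) :
    AddSubgroup (KNegOne (MonoidAlgebra ℤ G)) where
  carrier := {x | ∃ k : ℕ, 0 < k ∧ k • Kg i.π x = 0}
  zero_mem' := ⟨1, one_pos, by rw [map_zero, smul_zero]⟩
  add_mem' := by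
    rintro x y ⟨k, hk, h1⟩ ⟨l, hl, h2⟩
    refine ⟨k * l, Nat.mul_pos hk hl, ?_⟩
    rw [map_add, smul_add, mul_comm, mul_smul, h1, smul_zero, zero_add, mul_comm, mul_smul, h2,
      smul_zero]
  neg_mem' := by
    rintro x ⟨k, hk, h1⟩
    exact ⟨k, hk, by rw [map_neg, smul_neg, h1, neg_zero]⟩

theorem vq_sat {M : ℕ} {G : Type u} [Group G] (i : FQ.{u, v} M G) (k : ℕ)
    (x : KNegOne (MonoidAlgebra ℤ G)) (hk : 0 < k) (h : k • x ∈ VQ i) : x ∈ VQ i := by
  obtain ⟨l, hl, h1⟩ := h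
  refine ⟨l * k, Nat.mul_pos hl hk, ?_⟩
  rw [mul_smul, ← map_nsmul]
  exact h1

theorem vq_dir {M : ℕ} {G : Type u} [Group G] (i j : FQ.{u, v} M G) :
    ∃ k : FQ.{u, v} M G, VQ k ≤ VQ i ∧ VQ k ≤ VQ j := by
  refine ⟨⟨i.Q × j.Q, i.π.prod j.π, by rw [Nat.card_prod]; exact i.cop.mul_right j.cop⟩, ?_, ?_⟩
  · rintro x ⟨k, hk, h1⟩
    refine ⟨k, hk, ?_⟩
    have h2 := congrArg (Kg (MonoidHom.fst i.Q j.Q)) h1
    rw [map_nsmul, map_zero, Kg_comp, MonoidHom.fst_comp_prod] at h2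
    exact h2
  · rintro x ⟨k, hk, h1⟩
    refine ⟨k, hk, ?_⟩
    have h2 := congrArg (Kg (MonoidHom.snd i.Q j.Q)) h1
    rw [map_nsmul, map_zero, Kg_comp, MonoidHom.snd_comp_prod] at h2
    exact h2

instance {M : ℕ} {G : Type u} [Group G] : Nonempty (FQ.{u, v} M G) :=
  ⟨⟨PUnit, 1, by rw [Nat.card_unique]; exact Nat.coprime_one_right M⟩⟩

/-- the classes of the elements of a set -/
def EE {G : Type u} [Group G]
    (x' : ∀ n : ℕ, ℕ → K0 (LaurentPolynomial (MonoidAlgebra ℤ (Multiplicative (ZMod n)))))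
    (T : Set G) : Set (Src G) :=
  ⋃ t ∈ T, ⋃ p ∈ (orderOf t).primeFactors, {s | ∃ _ : NeZero (orderOf t),
    s = scl (ZAD.hmg (orderOf t) t (pow_orderOf_eq_one t)) (KNegOne.mk (x' (orderOf t) p))}

theorem ee_finite {G : Type u} [Group G]
    (x' : ∀ n : ℕ, ℕ → K0 (LaurentPolynomial (MonoidAlgebra ℤ (Multiplicative (ZMod n)))))
    (T : Set G) (hT : T.Finite) : (EE x' T).Finite := by
  refine Set.Finite.biUnion hT fun t _ => Set.Finite.biUnion (Finset.finite_toSet _) fun p _ => ?_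
  refine Set.Subsingleton.finite ?_
  rintro _ ⟨h1, rfl⟩ _ ⟨h2, rfl⟩
  rfl

theorem scl_mem {G : Type u} [Group G]
    (x' : ∀ n : ℕ, ℕ → K0 (LaurentPolynomial (MonoidAlgebra ℤ (Multiplicative (ZMod n)))))
    (T : Set G) (hT : ∀ g : G, IsOfFinOrder g → ∃ t ∈ T, IsConj t g) (n : ℕ) [hn0 : NeZero n]
    (φ : Multiplicative (ZMod n) →* G) (hφ : Function.Injective φ) (p : ℕ) (hp : p.Prime)
    (hpn : p ∣ n) : scl φ (KNegOne.mk (x' n p)) ∈ EE x' T := by
  have ho : orderOf (φ (gn n)) = n := by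
    rw [orderOf_injective φ hφ]
    change orderOf (Multiplicative.ofAdd (1 : ZMod n)) = n
    rw [orderOf_ofAdd_eq_addOrderOf, ZMod.addOrderOf_one]
  have hfin : IsOfFinOrder (φ (gn n)) := by
    rw [← orderOf_pos_iff, ho]
    exact Nat.pos_of_ne_zero (NeZero.ne n)
  obtain ⟨t, ht, hc⟩ := hT _ hfin
  obtain ⟨a, ha⟩ := isConj_iff.1 hc
  have hto : orderOf t = n := by
    rw [← ho, ← ha]
    exact (orderOf_injective (MulAut.conj a).toMonoidHom (MulAut.conj a).injective t).symm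
  subst hto
  have h1 : φ = (MulAut.conj a).toMonoidHom.comp
      (ZAD.hmg (orderOf t) t (pow_orderOf_eq_one t)) := by
    apply ZAD.hom_ext
    rw [MonoidHom.comp_apply, ZAD.hmg_gn]
    exact ha.symm
  rw [h1, scl_conj]
  refine Set.mem_biUnion ht (Set.mem_biUnion ?_ ⟨hn0, rfl⟩)
  exact Nat.mem_primeFactors.2 ⟨hp, hpn, NeZero.ne _⟩

theorem exists_x : ∃ (N' : ℕ → ℕ)
    (x' : ∀ n : ℕ, ℕ → K0 (LaurentPolynomial (MonoidAlgebra ℤ (Multiplicative (ZMod n))))),
    (∀ n, 0 < n → 0 < N' n) ∧ ∀ (n : ℕ) [NeZero n], LocN.{v} n (N' n) (x' n) := by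
  have hex : ∀ n : ℕ, ∃ (N : ℕ)
      (x : ℕ → K0 (LaurentPolynomial (MonoidAlgebra ℤ (Multiplicative (ZMod n))))), 0 < N ∧
      ∀ [NeZero n], LocN.{v} n N x := by
    intro n
    by_cases h : n = 0
    · exact ⟨1, 0, one_pos, fun {inst} => absurd h inst.ne⟩
    · have : NeZero n := ⟨h⟩
      obtain ⟨N, x, hN, hx⟩ := t_TKA.{v} n
      exact ⟨N, x, hN, fun {_} => hx⟩
  choose N' x' hN' hx' using hex
  exact ⟨N', x', fun n _ => hN' n, fun n _ => hx' n⟩

/-- Finitely many classes generate the source up to torsion. -/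
theorem src_gen {G : Type u} [Group G] (T : Set G) (hTf : T.Finite)
    (hT : ∀ g : G, IsOfFinOrder g → ∃ t ∈ T, IsConj t g) :
    ∃ E : Set (Src G), E.Finite ∧ ∀ s : Src G, ∃ m : ℕ, 0 < m ∧ m • s ∈ AddSubgroup.closure E := by
  obtain ⟨N', x', hN', hx'⟩ := exists_x.{u}
  refine ⟨EE x' T, ee_finite x' T hTf, ?_⟩
  let R : AddSubgroup (Src G) :=
    { carrier := {s | ∃ m : ℕ, 0 < m ∧ m • s ∈ AddSubgroup.closure (EE x' T)}
      zero_mem' := ⟨1, one_pos, by rw [smul_zero]; exact AddSubgroup.zero_mem _⟩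
      add_mem' := by
        rintro x y ⟨k, hk, h1⟩ ⟨l, hl, h2⟩
        refine ⟨k * l, Nat.mul_pos hk hl, ?_⟩
        rw [smul_add]
        refine AddSubgroup.add_mem _ ?_ ?_
        · rw [mul_comm, mul_smul]
          exact AddSubgroup.nsmul_mem _ h1 l
        · rw [mul_smul]
          exact AddSubgroup.nsmul_mem _ h2 k
      neg_mem' := by
        rintro x ⟨k, hk, h1⟩
        exact ⟨k, hk, by rw [smul_neg]; exact AddSubgroup.neg_mem _ h1⟩ }
  have h1 : QuotientAddGroup.mk' R = 0 := by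
    apply Src.hom_ext
    intro H e
    rw [AddMonoidHom.zero_apply]
    refine (QuotientAddGroup.eq_zero_iff _).2 ?_
    have := H.2
    obtain ⟨m, hm, c, hc⟩ := (all_GEN2 N' x' hN' hx' H.1).2 e
    refine ⟨m, hm, ?_⟩
    rw [← map_nsmul, hc, Finsupp.sum, map_sum]
    refine AddSubgroup.sum_mem _ fun j _ => ?_
    rw [map_zsmul]
    refine AddSubgroup.zsmul_mem _ (AddSubgroup.subset_closure ?_) _
    have : NeZero j.n := ⟨j.hn.ne'⟩
    have h2 : Src.of H (Kg j.φ (KNegOne.mk (x' j.n j.p))) =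
        scl (H.1.subtype.comp j.φ) (KNegOne.mk (x' j.n j.p)) :=
      scl_eq_of (H.1.subtype.comp j.φ) H j.φ 1 (by intro c; simp) _
    rw [h2]
    exact scl_mem x' T hT j.n _ (H.1.subtype_injective.comp j.inj) j.p j.hp j.hpn
  intro s
  have h2 := DFunLike.congr_fun h1 s
  exact (QuotientAddGroup.eq_zero_iff _).1 h2


/-- the tuples in the source -/
def UU {G : Type u} [Group G] {b : ℕ} (F : Fin b → G →* Multiplicative ℤ) :
    AddSubgroup (Fin b → Src G) :=
  AddSubgroup.closure {s | ∃ (H : Subgroup G) (hH : Finite H) (c : G)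
    (e : KNegOne (MonoidAlgebra ℤ H)), (∀ x ∈ H, c * x = x * c) ∧
      s = fun i => Multiplicative.toAdd (F i c) • Src.of ⟨H, hH⟩ e}

/-- finitely many tuples generate, up to torsion -/
theorem tuple_gen {S : Type u} [AddCommGroup S] (E : Set S) (hE : E.Finite)
    (hgen : ∀ s : S, ∃ m : ℕ, 0 < m ∧ m • s ∈ AddSubgroup.closure E) (b : ℕ) :
    ∃ E' : Set (Fin b → S), E'.Finite ∧
      ∀ s : Fin b → S, ∃ m : ℕ, 0 < m ∧ m • s ∈ AddSubgroup.closure E' := by
  classical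
  refine ⟨⋃ i : Fin b, (fun s => Pi.single i s) '' E,
    Set.finite_iUnion fun i => hE.image _, fun s => ?_⟩
  choose m hm hms using fun i => hgen (s i)
  refine ⟨∏ i, m i, Finset.prod_pos fun i _ => hm i, ?_⟩
  have h1 : (∏ i, m i) • s =
      ∑ i, (∏ j ∈ Finset.univ.erase i, m j) • Pi.single (M := fun _ : Fin b => S) i (m i • s i) := by
    rw [← Finset.univ_sum_single ((∏ i, m i) • s)]
    refine Finset.sum_congr rfl fun i _ => ?_
    rw [← Pi.single_smul, ← mul_smul, Finset.prod_erase_mul _ _ (Finset.mem_univ i), Pi.smul_apply]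
  rw [h1]
  refine AddSubgroup.sum_mem _ fun i _ => AddSubgroup.nsmul_mem _ ?_ _
  have h2 := AddSubgroup.mem_map_of_mem (AddMonoidHom.single (fun _ : Fin b => S) i) (hms i)
  rw [AddMonoidHom.map_closure] at h2
  exact AddSubgroup.closure_mono (Set.subset_iUnion
    (fun i : Fin b => (fun s => Pi.single (M := fun _ : Fin b => S) i s) '' E) i) h2

/-- `Cap` from the source -/
theorem uu_cap {G : Type u} [Group G] {b : ℕ} (F : Fin b → G →* Multiplicative ℤ)
    (s : Fin b → Src G) (hs : s ∈ UU F) : ∃ v ∈ Cap G, ∀ i, asm G (s i) = v (F i) := by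
  induction hs using AddSubgroup.closure_induction with
  | mem s hs =>
    obtain ⟨H, hH, c, e, hc, rfl⟩ := hs
    refine ⟨_, AddSubgroup.subset_closure ⟨H, hH, c, e, hc, rfl⟩, fun i => ?_⟩
    dsimp only
    rw [map_zsmul, asm_of]
  | zero => exact ⟨0, AddSubgroup.zero_mem _, fun i => map_zero _⟩
  | add s t _ _ hs ht =>
    obtain ⟨v, hv, h1⟩ := hs
    obtain ⟨w, hw, h2⟩ := ht
    refine ⟨v + w, AddSubgroup.add_mem _ hv hw, fun i => ?_⟩
    rw [Pi.add_apply, map_add, h1, h2]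
    rfl
  | neg s _ hs =>
    obtain ⟨v, hv, h1⟩ := hs
    refine ⟨-v, AddSubgroup.neg_mem _ hv, fun i => ?_⟩
    rw [Pi.neg_apply, map_neg, h1]
    rfl

/-- the source from `Cap` -/
theorem cap_uu {G : Type u} [Group G] {b : ℕ} (F : Fin b → G →* Multiplicative ℤ)
    (v : (G →* Multiplicative ℤ) → KNegOne (MonoidAlgebra ℤ G)) (hv : v ∈ Cap G) :
    ∃ s ∈ UU F, ∀ i, asm G (s i) = v (F i) := by
  induction hv using AddSubgroup.closure_induction with
  | mem v hv =>
    obtain ⟨H, hH, c, e, hc, rfl⟩ := hv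
    refine ⟨_, AddSubgroup.subset_closure ⟨H, hH, c, e, hc, rfl⟩, fun i => ?_⟩
    dsimp only
    rw [map_zsmul, asm_of]
  | zero => exact ⟨0, AddSubgroup.zero_mem _, fun i => map_zero _⟩
  | add s t _ _ hs ht =>
    obtain ⟨v, hv, h1⟩ := hs
    obtain ⟨w, hw, h2⟩ := ht
    refine ⟨v + w, AddSubgroup.add_mem _ hv hw, fun i => ?_⟩
    rw [Pi.add_apply, map_add, h1, h2]
    rfl
  | neg s _ hs =>
    obtain ⟨v, hv, h1⟩ := hs
    refine ⟨-v, AddSubgroup.neg_mem _ hv, fun i => ?_⟩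
    rw [Pi.neg_apply, map_neg, h1]
    rfl

/-- the elements of `Cap G` are additive in `f` -/
theorem cap_add {G : Type u} [Group G] {b : ℕ} (F : Fin b → G →* Multiplicative ℤ)
    (l : Fin b → ℤ) (f : G →* Multiplicative ℤ)
    (hf : ∀ c : G, Multiplicative.toAdd (f c) = ∑ i, l i * Multiplicative.toAdd (F i c))
    (v : (G →* Multiplicative ℤ) → KNegOne (MonoidAlgebra ℤ G)) (hv : v ∈ Cap G) :
    v f = ∑ i, l i • v (F i) := by
  induction hv using AddSubgroup.closure_induction with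
  | mem v hv =>
    obtain ⟨H, hH, c, e, hc, rfl⟩ := hv
    dsimp only
    rw [hf c, Finset.sum_smul]
    refine Finset.sum_congr rfl fun i _ => ?_
    rw [mul_smul]
  | zero => simp
  | add v w _ _ hv hw =>
    rw [Pi.add_apply, hv, hw, ← Finset.sum_add_distrib]
    refine Finset.sum_congr rfl fun i _ => ?_
    rw [Pi.add_apply, smul_add]
  | neg v _ hv =>
    rw [Pi.neg_apply, hv, ← Finset.sum_neg_distrib]
    refine Finset.sum_congr rfl fun i _ => ?_
    rw [Pi.neg_apply, smul_neg]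

/-- `Hom(G, ℤ)` is finitely generated -/
theorem hom_fg {G : Type u} [Group G] (hG : Group.FG G) :
    ∃ (b : ℕ) (F : Fin b → G →* Multiplicative ℤ), ∀ f : G →* Multiplicative ℤ, ∃ l : Fin b → ℤ,
      ∀ c : G, Multiplicative.toAdd (f c) = ∑ i, l i * Multiplicative.toAdd (F i c) := by
  classical
  obtain ⟨S, hS⟩ := Group.fg_iff.1 hG
  obtain ⟨hS, hSf⟩ := hS
  have := hSf.fintype
  let A : AddSubgroup (S → ℤ) :=
    { carrier := {w | ∃ f : G →* Multiplicative ℤ, w = fun s => Multiplicative.toAdd (f s.1)}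
      zero_mem' := ⟨1, rfl⟩
      add_mem' := by
        rintro _ _ ⟨f, rfl⟩ ⟨g, rfl⟩
        exact ⟨f * g, rfl⟩
      neg_mem' := by
        rintro _ ⟨f, rfl⟩
        exact ⟨f⁻¹, rfl⟩ }
  have hA : (AddSubgroup.toIntSubmodule A).FG := IsNoetherian.noetherian _
  obtain ⟨T, hT⟩ := hA
  have hTA : ∀ t : T, ∃ f : G →* Multiplicative ℤ, (t : S → ℤ) = fun s => Multiplicative.toAdd (f s.1) := by
    intro t
    have h1 : (t : S → ℤ) ∈ AddSubgroup.toIntSubmodule A := by
      rw [← hT]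
      exact Submodule.subset_span t.2
    exact h1
  choose F hF using hTA
  refine ⟨Fintype.card T, fun i => F ((Fintype.equivFin T).symm i), fun f => ?_⟩
  have h1 : (fun s : S => Multiplicative.toAdd (f s.1)) ∈
      Submodule.span ℤ (Set.range fun t : T => (t : S → ℤ)) := by
    rw [Subtype.range_coe_subtype]
    have h2 : {x | x ∈ T} = (T : Set (S → ℤ)) := rfl
    rw [h2, hT]
    exact ⟨f, rfl⟩
  obtain ⟨l, hl⟩ := (Submodule.mem_span_range_iff_exists_fun ℤ).1 h1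
  refine ⟨fun i => l ((Fintype.equivFin T).symm i), fun c => ?_⟩
  have h3 : ∀ c : G, ∑ i, l ((Fintype.equivFin T).symm i) *
      Multiplicative.toAdd (F ((Fintype.equivFin T).symm i) c) =
      ∑ t : T, l t * Multiplicative.toAdd (F t c) := fun c =>
    (Fintype.equivFin T).symm.sum_comp (fun t => l t * Multiplicative.toAdd (F t c))
  rw [h3]
  have h4 : f = ∏ t : T, F t ^ l t := by
    refine MonoidHom.eq_of_eqOn_dense hS fun s hs => ?_
    have h5 := congrFun hl ⟨s, hs⟩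
    apply Multiplicative.toAdd.injective
    rw [MonoidHom.finsetProd_apply, toAdd_prod]
    rw [← h5, Finset.sum_apply]
    refine Finset.sum_congr rfl fun t _ => ?_
    rw [Pi.smul_apply, hF t, smul_eq_mul]
    change _ = Multiplicative.toAdd ((F t s) ^ l t)
    rw [toAdd_zpow, smul_eq_mul]
  rw [h4, MonoidHom.finsetProd_apply, toAdd_prod]
  refine Finset.sum_congr rfl fun t _ => ?_
  change Multiplicative.toAdd ((F t c) ^ l t) = _
  rw [toAdd_zpow, smul_eq_mul]

end ONE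

open ONE

/-- One element of the source for all finite quotients, degree `-1`. -/
theorem one_neg {G : Type u} [Group G] (hT : FewTors G) (M : ℕ) (x : KNegOne (MonoidAlgebra ℤ G))
    (h : ∀ (Q : Type v) [Group Q] [Finite Q] (π : G →* Q), M.Coprime (Nat.card Q) → SeenNeg π x) :
    OneNeg.{u, v} M x := by
  obtain ⟨T, hTf, hTT⟩ := hT
  obtain ⟨E, hE, hgen⟩ := src_gen T hTf hTT
  obtain ⟨n, s, hn, -, hs⟩ := dir_one (asm G) ⊤ E hE (fun s _ => hgen s) x
    (VQ (M := M) (G := G)) vq_sat vq_dir (fun i : FQ.{u, v} M G => by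
      obtain ⟨n, s, hn, hs⟩ := h i.Q i.π i.cop
      exact ⟨n, s, hn, AddSubgroup.mem_top s, 1, one_pos, by
        rw [map_sub, hs, sub_self, smul_zero]⟩)
  exact ⟨n, s, hn, fun Q _ _ π hQ => hs ⟨Q, π, hQ⟩⟩

/-- One element of the source for all finite quotients, degree `0`. -/
theorem one_zero {G : Type u} [Group G] (hT : FewTors G) (hG : Group.FG G) (M : ℕ)
    (z : K0 (MonoidAlgebra ℤ G))
    (h : ∀ (Q : Type v) [Group Q] [Finite Q] (π : G →* Q), M.Coprime (Nat.card Q) → SeenZero π z) :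
    OneZero.{u, v} M z := by
  classical
  obtain ⟨T, hTf, hTT⟩ := hT
  obtain ⟨E, hE, hgen⟩ := src_gen T hTf hTT
  obtain ⟨b, F, hF⟩ := hom_fg hG
  obtain ⟨E', hE', hgen'⟩ := tuple_gen E hE hgen b
  let V : FQ.{u, v} M G → AddSubgroup (Fin b → KNegOne (MonoidAlgebra ℤ G)) := fun i =>
    AddSubgroup.pi Set.univ fun _ => VQ i
  have hV : ∀ (i : FQ.{u, v} M G) (x : Fin b → KNegOne (MonoidAlgebra ℤ G)),
      x ∈ V i ↔ ∀ j, x j ∈ VQ i := fun i x => by
    simp only [V, AddSubgroup.mem_pi, Set.mem_univ, forall_const]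
  obtain ⟨n, s, hn, hsU, hs⟩ := dir_one ((asm G).compLeft (Fin b)) (UU F) E' hE'
    (fun s _ => hgen' s) (fun j => ddf (F j) z) V
    (fun i k x hk hx => by
      rw [hV] at hx ⊢
      exact fun j => vq_sat i k (x j) hk (hx j))
    (fun i j => by
      obtain ⟨k, h1, h2⟩ := vq_dir i j
      exact ⟨k, fun x hx => (hV _ _).2 fun a => h1 ((hV _ _).1 hx a),
        fun x hx => (hV _ _).2 fun a => h2 ((hV _ _).1 hx a)⟩)
    (fun i : FQ.{u, v} M G => by
      obtain ⟨n, hn, v, hv, hvs⟩ := h i.Q i.π i.cop b F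
      obtain ⟨s, hsU, hs⟩ := cap_uu F v hv
      refine ⟨n, s, hn, hsU, (hV _ _).2 fun j => ⟨1, one_pos, ?_⟩⟩
      change 1 • Kg i.π (n • ddf (F j) z - asm G (s j)) = 0
      rw [hs j, map_sub, hvs j, sub_self, smul_zero])
  obtain ⟨v, hv, hvs⟩ := uu_cap F s hsU
  refine ⟨n, hn, v, hv, fun Q _ _ π f hQ => ?_⟩
  obtain ⟨l, hl⟩ := hF f
  -- the tuple `(f, F)`
  obtain ⟨n', hn', v', hv', h'⟩ := h Q π hQ (b + 1) (Fin.cons f F)
  have h0 : Kg π (n' • ddf f z) = Kg π (v' f) := h' 0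
  have hj : ∀ j : Fin b, Kg π (n' • ddf (F j) z) = Kg π (v' (F j)) := fun j => h' j.succ
  have h1 : n' • Kg π (ddf f z) = ∑ j, l j • n' • Kg π (ddf (F j) z) := by
    rw [← map_nsmul, h0, cap_add F l f hl v' hv', map_sum]
    refine Finset.sum_congr rfl fun j _ => ?_
    rw [map_zsmul, ← hj j, map_nsmul]
  choose k hk hkk using fun j : Fin b => (hV ⟨Q, π, hQ⟩ _).1 (hs ⟨Q, π, hQ⟩) j
  refine ⟨n' * ∏ j, k j, Nat.mul_pos hn' (Finset.prod_pos fun j _ => hk j), ?_⟩
  have h2 : ∀ j : Fin b, (∏ j, k j) • Kg π (n • ddf (F j) z - v (F j)) = 0 := by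
    intro j
    have h3 : k j • Kg π (n • ddf (F j) z - v (F j)) = 0 := by
      rw [← hvs j]
      exact hkk j
    rw [← Finset.prod_erase_mul _ _ (Finset.mem_univ j), mul_smul, h3, smul_zero]
  have h4 : n' • Kg π (n • ddf f z - v f) =
      ∑ j, l j • n' • Kg π (n • ddf (F j) z - v (F j)) := by
    rw [map_sub, map_nsmul, smul_sub, smul_comm n' n, h1, cap_add F l f hl v hv, map_sum,
      Finset.smul_sum, Finset.smul_sum, ← Finset.sum_sub_distrib]
    refine Finset.sum_congr rfl fun j _ => ?_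
    rw [map_sub, map_nsmul, smul_sub, smul_sub, map_zsmul, smul_comm n (l j), smul_comm n n',
      smul_comm n' (l j)]
  rw [mul_comm, mul_smul, h4, Finset.smul_sum]
  refine Finset.sum_eq_zero fun j _ => ?_
  rw [smul_comm _ (l j), smul_comm _ n', h2 j, smul_zero, smul_zero]

end Pool.Agent.SM5
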