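import Pool.Agent.SM5.St

set_option autoImplicit false

open Pool.Agent.Lib25 Pool.Agent.KM

noncomputable section

namespace Pool.Agent.SM5

universe v

namespace CLA

theorem zpowers_conj {G : Type v} [Group G] (x h : G) :
    Subgroup.zpowers (x * h * x⁻¹) = (Subgroup.zpowers h).map (MulAut.conj x).toMonoidHom := by
  rw [MonoidHom.map_zpowers]
  rfl

theorem cz_of_zpowers {G : Type v} [Group G] {h h' : G}
    (hz : Subgroup.zpowers h = Subgroup.zpowers h') : cz h = cz h' := by
  unfold cz
  congr 1
  funext x
  rw [zpowers_conj, zpowers_conj, hz]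

theorem cz_pow {G : Type v} [Group G] {h : G} (hf : IsOfFinOrder h) {a : ℕ}
    (ha : a.Coprime (orderOf h)) : cz (h ^ a) = cz h := by
  apply cz_of_zpowers
  apply le_antisymm
  · rw [Subgroup.zpowers_le]
    exact Subgroup.pow_mem _ (Subgroup.mem_zpowers _) _
  · have hpos := hf.orderOf_pos
    have : Finite (Subgroup.zpowers h) := by
      apply Nat.finite_of_card_ne_zero
      rw [Nat.card_zpowers]
      exact hpos.ne'
    have h1 : Subgroup.zpowers (h ^ a) ≤ Subgroup.zpowers h := by
      rw [Subgroup.zpowers_le]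
      exact Subgroup.pow_mem _ (Subgroup.mem_zpowers _) _
    refine (Subgroup.eq_of_le_of_card_ge h1 ?_).ge
    rw [Nat.card_zpowers, Nat.card_zpowers, Nat.Coprime.orderOf_pow ha.symm]

end CLA

open scoped Classical in
theorem t_CLA : S_CLA.{v} := by
  intro G _ b L hL μ h0
  refine ⟨?_, ?_, ?_⟩
  · intro p h x
    have h1 : cz (x * h * x⁻¹) = cz h := (cz_of_isConj (isConj_iff.2 ⟨x, rfl⟩)).symm
    simp only [h1, (hL _).conj]
  · intro p h h' j k hz hp
    have h1 : cz h = cz h' := CLA.cz_of_zpowers hz
    have h2 : ∀ i, L i p h = L i p h' := fun i => (hL i).frob p h h' j k hz hp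
    simp only [h1, h2]
  · intro h hf
    have h1 : ∑ p ∈ (orderOf h).primeFactors,
        ∑ a ∈ Finset.range (orderOf h) with a.Coprime (orderOf h),
          (if cz (h ^ a) = cz h0 then ∑ i, μ i * L i p (h ^ a) else 0) =
        ∑ p ∈ (orderOf h).primeFactors,
        ∑ a ∈ Finset.range (orderOf h) with a.Coprime (orderOf h),
          (if cz h = cz h0 then ∑ i, μ i * L i p (h ^ a) else 0) := by
      refine Finset.sum_congr rfl fun p _ => Finset.sum_congr rfl fun a ha => ?_
      rw [CLA.cz_pow hf (Finset.mem_filter.1 ha).2]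
    rw [h1]
    by_cases hc : cz h = cz h0
    · simp only [if_pos hc]
      have h2 : ∑ p ∈ (orderOf h).primeFactors,
          ∑ a ∈ Finset.range (orderOf h) with a.Coprime (orderOf h), ∑ i, μ i * L i p (h ^ a) =
          ∑ i, μ i * ∑ p ∈ (orderOf h).primeFactors,
            ∑ a ∈ Finset.range (orderOf h) with a.Coprime (orderOf h), L i p (h ^ a) := by
        simp only [Finset.mul_sum]
        symm
        rw [Finset.sum_comm]
        refine Finset.sum_congr rfl fun p _ => ?_
        rw [Finset.sum_comm]
      rw [h2]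
      refine Finset.sum_eq_zero fun i _ => ?_
      rw [(hL i).sum h hf, mul_zero]
    · simp only [if_neg hc, Finset.sum_const_zero]

end Pool.Agent.SM5
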