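import Pool.Agent.SM5.St2
import Pool.Agent.SM3.P_FNS4

/-!
# SM5, module FNS5: the tuple theorem for surjective homomorphisms
-/

set_option autoImplicit false
set_option linter.unusedSectionVars false
set_option maxHeartbeats 4000000

open Matrix Pool.Agent.Lib25 Pool.Agent.KM Pool.Agent.SM1 Pool.Agent.SM2 Pool.Agent.SM3

noncomputable section

namespace Pool.Agent.SM5

universe u v w

namespace FNS5

/-- the values of `F` on the centralisers of the elements of finite order over `h` -/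
def DD {G : Type u} [Group G] {Q : Type v} [Group Q] (π : G →* Q) {b : ℕ}
    (F : Fin b → G →* Multiplicative ℤ) (h : Q) : AddSubgroup (Fin b → ℤ) :=
  AddSubgroup.closure {d | ∃ g c : G, IsOfFinOrder g ∧ c * g = g * c ∧ π g = h ∧
    d = fun i => Multiplicative.toAdd (F i c)}

theorem mem_dd {G : Type u} [Group G] {Q : Type v} [Group Q] (π : G →* Q) {b : ℕ}
    (F : Fin b → G →* Multiplicative ℤ) (g c : G) (hg : IsOfFinOrder g) (hc : c * g = g * c) :
    (fun i => Multiplicative.toAdd (F i c)) ∈ DD π F (π g) :=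
  AddSubgroup.subset_closure ⟨g, c, hg, hc, rfl, rfl⟩

/-- finitely many pairs are enough -/
theorem exists_bound {G : Type u} [Group G] {Q : Type v} [Group Q] [Finite Q] (π : G →* Q) {b : ℕ}
    (F : Fin b → G →* Multiplicative ℤ) : ∃ M : ℕ, 0 < M ∧ ∀ (h : Q) (w : Fin b → ℚ),
      (∀ g c : G, g ^ M = 1 → c * g = g * c → π g = h →
        ∑ i, ((Multiplicative.toAdd (F i c) : ℤ) : ℚ) * w i = 0) →
      ∀ d ∈ DD π F h, ∑ i, (d i : ℚ) * w i = 0 := by
  classical
  have := Fintype.ofFinite Q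
  have h1 : ∀ h : Q, ∃ m : ℕ, 0 < m ∧ ∀ (M : ℕ), m ∣ M → ∀ w : Fin b → ℚ,
      (∀ g c : G, g ^ M = 1 → c * g = g * c → π g = h →
        ∑ i, ((Multiplicative.toAdd (F i c) : ℤ) : ℚ) * w i = 0) →
      ∀ d ∈ DD π F h, ∑ i, (d i : ℚ) * w i = 0 := by
    intro h
    let s : Set (Fin b → ℤ) := {d | ∃ g c : G, IsOfFinOrder g ∧ c * g = g * c ∧ π g = h ∧
      d = fun i => Multiplicative.toAdd (F i c)}
    obtain ⟨t, hts, ht⟩ := (Submodule.fg_span_iff_fg_span_finset_subset (R := ℤ) s).1
      (IsNoetherian.noetherian _)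
    have h2 : ∀ d : Fin b → ℤ, ∃ m : ℕ, 0 < m ∧ (d ∈ t → ∃ g c : G, g ^ m = 1 ∧ c * g = g * c ∧
        π g = h ∧ d = fun i => Multiplicative.toAdd (F i c)) := by
      intro d
      by_cases hd : d ∈ t
      · obtain ⟨g, c, hg, hc, hgh, hdc⟩ := hts hd
        obtain ⟨m, hm, hgm⟩ := isOfFinOrder_iff_pow_eq_one.1 hg
        exact ⟨m, hm, fun _ => ⟨g, c, hgm, hc, hgh, hdc⟩⟩
      · exact ⟨1, one_pos, fun h => absurd h hd⟩
    choose m hm hm' using h2
    refine ⟨∏ d ∈ t, m d, Finset.prod_pos fun d _ => hm d, fun M hM w hw d hd => ?_⟩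
    have h3 : d ∈ Submodule.span ℤ (t : Set (Fin b → ℤ)) := by
      rw [← ht, ← Submodule.mem_toAddSubgroup, Submodule.span_int_eq_addSubgroupClosure]
      exact hd
    clear hd
    induction h3 using Submodule.span_induction with
    | mem d hd =>
      obtain ⟨g, c, hgm, hc, hgh, hdc⟩ := hm' d hd
      rw [hdc]
      refine hw g c ?_ hc hgh
      obtain ⟨k, hk⟩ := (Finset.dvd_prod_of_mem m hd).trans hM
      rw [hk, pow_mul, hgm, one_pow]
    | zero => simp
    | add x y _ _ hx hy =>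
      have h7 : ∑ i, (((x + y) i : ℤ) : ℚ) * w i = ∑ i, ((x i : ℤ) : ℚ) * w i +
          ∑ i, ((y i : ℤ) : ℚ) * w i := by
        rw [← Finset.sum_add_distrib]
        refine Finset.sum_congr rfl fun i _ => ?_
        rw [Pi.add_apply, Int.cast_add, add_mul]
      rw [h7, hx, hy, add_zero]
    | smul a x _ hx =>
      have h7 : ∑ i, (((a • x) i : ℤ) : ℚ) * w i = a * ∑ i, ((x i : ℤ) : ℚ) * w i := by
        rw [Finset.mul_sum]
        refine Finset.sum_congr rfl fun i _ => ?_
        rw [Pi.smul_apply, smul_eq_mul, Int.cast_mul, mul_assoc]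
      rw [h7, hx, mul_zero]
  choose m hm hm' using h1
  refine ⟨∏ h, m h, Finset.prod_pos fun h _ => hm h, fun h w hw d hd => ?_⟩
  exact hm' h _ (Finset.dvd_prod_of_mem m (Finset.mem_univ h)) w hw d hd

theorem dd_le {G : Type u} [Group G] {Q : Type v} [Group Q] [Finite Q] (π : G →* Q)
    (hπ : Function.Surjective π) {b : ℕ} (F : Fin b → G →* Multiplicative ℤ) (h h' : Q)
    (hc : cz h = cz h') : DD π F h ≤ DD π F h' := by
  unfold DD
  rw [AddSubgroup.closure_le]
  rintro _ ⟨g, c, hg, hcg, hgh, rfl⟩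
  have hn : 0 < orderOf h := orderOf_pos h
  have : NeZero (orderOf h) := ⟨hn.ne'⟩
  obtain ⟨u, hu⟩ := exists_unit_of_cz (n := orderOf h) rfl hc
  obtain ⟨k, hk⟩ := isConj_iff.1 hu.symm
  obtain ⟨k', rfl⟩ := hπ k
  have h1 : (fun i => Multiplicative.toAdd (F i c)) =
      fun i => Multiplicative.toAdd (F i (k' * c * k'⁻¹)) := by
    funext i
    have h0 : F i (k' * c * k'⁻¹) = F i c := by
      rw [map_mul, map_mul, map_inv, mul_comm (F i k') (F i c), mul_assoc, mul_inv_cancel, mul_one]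
    rw [h0]
  rw [h1]
  have h2 : π (k' * g ^ (u : ZMod (orderOf h)).val * k'⁻¹) = h' := by
    rw [map_mul, map_mul, map_inv, map_pow, hgh]
    exact hk
  have h3 := mem_dd π F (k' * g ^ (u : ZMod (orderOf h)).val * k'⁻¹) (k' * c * k'⁻¹)
    (MonoidHom.isOfFinOrder (MulAut.conj k').toMonoidHom hg.pow) (by
      have h4 : c * g ^ (u : ZMod (orderOf h)).val = g ^ (u : ZMod (orderOf h)).val * c :=
        (Commute.pow_right (show Commute c g from hcg) _).eq
      have h5 : k' * c * k'⁻¹ * (k' * g ^ (u : ZMod (orderOf h)).val * k'⁻¹) =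
          k' * (c * g ^ (u : ZMod (orderOf h)).val) * k'⁻¹ := by group
      rw [h5, h4]
      group)
  rw [h2] at h3
  exact h3

/-- The tuple of the image of a finite cyclic group. -/
theorem mem_uf {G : Type u} {Q : Type v} [Group G] [Group Q] (π : G →* Q) {b : ℕ}
    (F : Fin b → G →* Multiplicative ℤ) {n : ℕ} [NeZero n] (ψ : Multiplicative (ZMod n) →* G) (c : G)
    (hc : c * ψ (gn n) = ψ (gn n) * c)
    (y : KNegOne (MonoidAlgebra ℤ (Multiplicative (ZMod n)))) :
    (fun i => Multiplicative.toAdd (F i c) • Kg (π.comp ψ) y) ∈ UF π F := by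
  have hfin : Finite ψ.range := by
    have : Finite (Multiplicative (ZMod n)) := inferInstance
    exact Set.finite_range ψ |>.to_subtype
  have hcomm : ∀ x ∈ ψ.range, c * x = x * c := by
    rintro _ ⟨a, rfl⟩
    have ha : a = gn n ^ (Multiplicative.toAdd a).val := by
      change a = (Multiplicative.ofAdd (1 : ZMod n)) ^ (Multiplicative.toAdd a).val
      rw [← ofAdd_nsmul, nsmul_eq_mul, mul_one, ZMod.natCast_zmod_val]
      rfl
    rw [ha, map_pow]
    exact (Commute.pow_right (show Commute c (ψ (gn n)) from hc) _).eq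
  have h1 : Kg (π.comp ψ) y = Kg (π.comp ψ.range.subtype) (Kg ψ.rangeRestrict y) := by
    rw [Kg_comp]
    rfl
  rw [h1]
  exact AddSubgroup.subset_closure ⟨ψ.range, hfin, c, _, hcomm, rfl⟩

/-- A homomorphism on tuples is the sum of its components. -/
theorem sum_single {A : Type u} [AddCommGroup A] {b : ℕ} (l : (Fin b → A) →+ ℚ) (v : Fin b → A) :
    l v = ∑ i, l (Pi.single i (v i)) := by
  rw [← map_sum, Finset.univ_sum_single]

end FNS5

open FNS FNS5 in
open scoped Classical in
theorem t_FNS5 (hNUM : S_NUM5.{u, v}) (hTR3 : S_TR3.{v}) (hCLA : S_CLA.{v}) (hORT : S_ORT)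
    (hGEN : S_GEN2.{v}) (hLPF : S_LPF.{v}) (hTKA : S_TKA.{v}) : S_FNS5.{u, v} := by
  intro G _ Q _ _ π hπ b F r hZ z
  by_contra hcon
  push Not at hcon
  obtain ⟨l, hl0, hl1⟩ := functional (UF π F) (fun i => Kg π (ddf (F i) z)) hcon
  obtain ⟨M, hM, hMT⟩ := exists_bound π F
  have hex : ∀ n : ℕ, ∃ (N : ℕ)
      (x : ℕ → K0 (LaurentPolynomial (MonoidAlgebra ℤ (Multiplicative (ZMod n))))), 0 < N ∧
      ∀ [NeZero n], LocN.{v} n N x := by
    intro n
    by_cases h : n = 0
    · exact ⟨1, 0, one_pos, fun {inst} => absurd h inst.ne⟩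
    · have : NeZero n := ⟨h⟩
      obtain ⟨N, x, hN, hx⟩ := hTKA n
      exact ⟨N, x, hN, fun {_} => hx⟩
  choose N' x' hN' hx' using hex
  set N : ℕ → ℕ := fun n => N' (n * M) with hNdef
  set x₀ : ∀ n : ℕ, ℕ → K0 (LaurentPolynomial (MonoidAlgebra ℤ (Multiplicative (ZMod n)))) :=
    fun n p => K0.map (mapL (grm (cN (n * M) n (dvd_mul_right n M)))) (x' (n * M) p) with hx₀
  have hN : ∀ n, 0 < n → 0 < N n := fun n _ => hN' (n * M)
  have hloc : ∀ (n : ℕ) [NeZero n], LocN.{v} n (N n) (x₀ n) := by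
    intro n _
    have : NeZero (n * M) := ⟨Nat.mul_ne_zero (NeZero.ne n) hM.ne'⟩
    exact hLPF n (n * M) (dvd_mul_right n M) (N' (n * M)) (x' (n * M)) (hx' (n * M))
  obtain ⟨hg1, hg2⟩ := hGEN N x₀ hN hloc Q
  choose L hadm hL using fun i : Fin b =>
    hg1 (l.comp (AddMonoidHom.single (fun _ : Fin b => KNegOne (MonoidAlgebra ℤ Q)) i))
  set κ : IdxM Q → KNegOne (MonoidAlgebra ℤ Q) := fun j => Kg j.φ (KNegOne.mk (x₀ j.n j.p))
    with hκ
  set Φ := Finsupp.linearCombination ℤ κ with hΦ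
  have hΦs : ∀ c : IdxM Q →₀ ℤ, Φ c = c.sum fun j n => n • κ j := fun c =>
    Finsupp.linearCombination_apply ℤ c
  -- a common multiple
  obtain ⟨m, hm, c, hc⟩ : ∃ (m : ℕ), 0 < m ∧ ∃ c : Fin b → IdxM Q →₀ ℤ,
      ∀ i, m • Kg π (ddf (F i) z) = Φ (c i) := by
    choose m hm c hc using fun i : Fin b => hg2 (Kg π (ddf (F i) z))
    refine ⟨∏ i, m i, Finset.prod_pos fun i _ => hm i,
      fun i => (∏ k ∈ Finset.univ.erase i, m k) • c i, fun i => ?_⟩
    rw [map_nsmul, hΦs, ← hc i, ← mul_smul, Finset.prod_erase_mul _ _ (Finset.mem_univ i)]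
  -- the functional on the universal classes
  have hlΦ : ∀ (i : Fin b) (c : IdxM Q →₀ ℤ), l (Pi.single i (Φ c)) =
      c.sum fun j n => (n : ℚ) * L i j.p (j.φ (gn j.n)) := by
    intro i c
    have h1 : l (Pi.single i (Φ c)) =
      (l.comp (AddMonoidHom.single (fun _ : Fin b => KNegOne (MonoidAlgebra ℤ Q)) i)) (Φ c) := rfl
    rw [h1, hΦs, Finsupp.sum, Finsupp.sum, map_sum]
    refine Finset.sum_congr rfl fun j _ => ?_
    rw [map_zsmul, hL i j, zsmul_eq_mul]
  -- the values are orthogonal to `DD`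
  have hort : ∀ (h : Q) (p : ℕ), p ∈ (orderOf h).primeFactors → ∀ d ∈ DD π F h,
      ∑ i, (d i : ℚ) * L i p h = 0 := by
    intro h p hp
    refine hMT h (fun i => L i p h) fun g c' hgM hc' hgh => ?_
    have hn : 0 < orderOf h := orderOf_pos h
    have : NeZero (orderOf h) := ⟨by omega⟩
    have : NeZero (orderOf h * M) := ⟨Nat.mul_ne_zero hn.ne' hM.ne'⟩
    have hpow : h ^ orderOf h = 1 := pow_orderOf_eq_one h
    have hinj := ZAD.hmg_inj rfl hpow
    have hgpow : g ^ (orderOf h * M) = 1 := by rw [mul_comm, pow_mul, hgM, one_pow]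
    have h2 : (ZAD.hmg (orderOf h) h hpow).comp
        (cN (orderOf h * M) (orderOf h) (dvd_mul_right (orderOf h) M)) =
        π.comp (ZAD.hmg (orderOf h * M) g hgpow) := by
      apply ZAD.hom_ext
      rw [MonoidHom.comp_apply, MonoidHom.comp_apply, ZAD.hmg_gn, hgh]
      have h3 : cN (orderOf h * M) (orderOf h) (dvd_mul_right (orderOf h) M)
          (gn (orderOf h * M)) = gn (orderOf h) := by
        change Multiplicative.ofAdd (ZMod.castHom (dvd_mul_right (orderOf h) M)
          (ZMod (orderOf h)) (1 : ZMod (orderOf h * M))) = _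
        rw [map_one]
      rw [h3, ZAD.hmg_gn]
    have h1 : ∀ i, L i p h = l (Pi.single i (Kg (π.comp (ZAD.hmg (orderOf h * M) g hgpow))
        (KNegOne.mk (x' (orderOf h * M) p)))) := by
      intro i
      have h1 := hL i ⟨orderOf h, p, hn, Nat.prime_of_mem_primeFactors hp,
        Nat.dvd_of_mem_primeFactors hp, ZAD.hmg (orderOf h) h hpow, hinj⟩
      change l (Pi.single i (Kg (ZAD.hmg (orderOf h) h hpow) (KNegOne.mk (K0.map (mapL (grm
        (cN (orderOf h * M) (orderOf h) (dvd_mul_right (orderOf h) M))))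
          (x' (orderOf h * M) p))))) =
        L i p (ZAD.hmg (orderOf h) h hpow (gn (orderOf h))) at h1
      rw [ZAD.hmg_gn] at h1
      rw [← h1, ← KNegOne.map_mk]
      change l (Pi.single i (Kg (ZAD.hmg (orderOf h) h hpow) (Kg
        (cN (orderOf h * M) (orderOf h) (dvd_mul_right (orderOf h) M))
        (KNegOne.mk (x' (orderOf h * M) p))))) = _
      rw [Kg_comp, h2]
    have h4 := hl0 _ (mem_uf π F (ZAD.hmg (orderOf h * M) g hgpow) c' (by
      rw [ZAD.hmg_gn]
      exact hc') (KNegOne.mk (x' (orderOf h * M) p)))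
    rw [sum_single] at h4
    rw [← h4]
    refine Finset.sum_congr rfl fun i _ => ?_
    rw [h1 i, Pi.single_smul, map_zsmul, zsmul_eq_mul]
  -- the relation
  have key : ∑ i, (c i).sum (fun j n => (n : ℚ) * L i j.p (j.φ (gn j.n))) = 0 := by
    have := Fintype.ofFinite Q
    -- decomposition over the classes of cyclic subgroups
    have hdec : ∀ (i : Fin b), (c i).sum (fun j n => (n : ℚ) * L i j.p (j.φ (gn j.n))) =
        ∑ K ∈ Finset.univ.image (fun h : Q => cz h), (c i).sum (fun j n => (n : ℚ) *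
          (if cz (j.φ (gn j.n)) = K then L i j.p (j.φ (gn j.n)) else 0)) := by
      intro i
      simp only [Finsupp.sum]
      rw [Finset.sum_comm]
      refine Finset.sum_congr rfl fun j _ => ?_
      rw [← Finset.mul_sum, Finset.sum_ite_eq, if_pos]
      exact Finset.mem_image_of_mem _ (Finset.mem_univ _)
    rw [Finset.sum_congr rfl fun i _ => hdec i, Finset.sum_comm]
    apply Finset.sum_eq_zero
    intro K hK
    obtain ⟨h0, -, rfl⟩ := Finset.mem_image.1 hK
    obtain ⟨rr, v, μ, hv, hμ⟩ := hORT b (DD π F h0)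
    set t : Fin rr → ℕ → Q → ℚ := fun a p h => if cz h = cz h0 then ∑ k, μ a k * L k p h else 0
      with ht
    have hadm' : ∀ a, AdmM (t a) := fun a => hCLA L hadm (μ a) h0
    have h1 : ∀ (i : Fin b) (j : IdxM Q),
        (if cz (j.φ (gn j.n)) = cz h0 then L i j.p (j.φ (gn j.n)) else 0) =
        ∑ a, t a j.p (j.φ (gn j.n)) * (v a i : ℚ) := by
      intro i j
      by_cases hj : cz (j.φ (gn j.n)) = cz h0
      · rw [if_pos hj]
        have hjo : orderOf (j.φ (gn j.n)) = j.n := TRL.orderOf_hh j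
        have h2 := hμ (fun i => L i j.p (j.φ (gn j.n))) (fun d hd => hort _ j.p (by
          rw [hjo, Nat.mem_primeFactors]
          exact ⟨j.hp, j.hpn, j.hn.ne'⟩) d (dd_le π hπ F h0 _ hj.symm hd)) i
        rw [h2]
        refine Finset.sum_congr rfl fun a _ => ?_
        rw [ht]
        dsimp only
        rw [if_pos hj]
      · rw [if_neg hj]
        symm
        apply Finset.sum_eq_zero
        intro a _
        rw [ht]
        dsimp only
        rw [if_neg hj, zero_mul]
    have h2 : ∀ a, ((∑ i, v a i • c i).sum fun j m => (m : ℚ) * t a j.p (j.φ (gn j.n))) = 0 := by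
      intro a
      refine hTR3 (G := Q) N x₀ hN hloc (t a) (hadm' a) {h | cz h ≠ cz h0} ?_ ?_ ?_ _ ?_
      · intro h hh g
        have h3 : cz h = cz (g * h * g⁻¹) := cz_of_isConj (isConj_iff.2 ⟨g, rfl⟩)
        intro h4
        exact hh (h3.trans h4)
      · intro h hh n hn h4
        apply hh
        have hpos : 0 < orderOf h := orderOf_pos h
        have : NeZero (orderOf h) := ⟨hpos.ne'⟩
        have h5 : h ^ ((ZMod.unitOfCoprime n hn : (ZMod (orderOf h))ˣ) : ZMod (orderOf h)).val =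
            h ^ n := by
          rw [ZMod.coe_unitOfCoprime, ZMod.val_natCast]
          exact pow_mod_orderOf h n
        rw [← h4, ← h5, cz_pow_val (pow_orderOf_eq_one h)]
      · intro h hh p _
        rw [ht]
        dsimp only
        rw [if_neg hh]
      · intro w hw
        obtain ⟨y, hy⟩ := hNUM π hπ F r hZ z (v a)
          (∑ j ∈ (∑ i, v a i • c i).support, (∑ i, v a i • c i) j •
            K0.map (mapL (grm j.φ)) (x₀ j.n j.p)) m (by
            have h3 : KNegOne.mk (∑ j ∈ (∑ i, v a i • c i).support, (∑ i, v a i • c i) j •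
                K0.map (mapL (grm j.φ)) (x₀ j.n j.p)) = Φ (∑ i, v a i • c i) := by
              rw [hΦs, Finsupp.sum, map_sum]
              refine Finset.sum_congr rfl fun j _ => ?_
              rw [map_zsmul, hκ]
              dsimp only
              rw [← KNegOne.map_mk]
            rw [h3, map_sum, Finset.smul_sum]
            refine Finset.sum_congr rfl fun i _ => ?_
            rw [map_zsmul, ← hc i, smul_comm]
            rfl) w hw
        refine ⟨y, fun p _ h _ hp hnT => hy p h hp fun g c' hg hc' hgh => ?_⟩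
        have hnT' : cz h = cz h0 := not_not.1 hnT
        have h3 := mem_dd π F g c' hg hc'
        rw [hgh] at h3
        exact hv a _ (dd_le π hπ F h h0 hnT' h3)
    -- exchange the sums
    have h3 : ∀ i, ((c i).sum fun j n => (n : ℚ) *
        (if cz (j.φ (gn j.n)) = cz h0 then L i j.p (j.φ (gn j.n)) else 0)) =
        ∑ a, (v a i : ℚ) * ((c i).sum fun j m => (m : ℚ) * t a j.p (j.φ (gn j.n))) := by
      intro i
      simp only [Finsupp.sum]
      simp only [Finset.mul_sum]
      rw [Finset.sum_comm]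
      refine Finset.sum_congr rfl fun j _ => ?_
      rw [h1 i j, Finset.mul_sum]
      refine Finset.sum_congr rfl fun a _ => ?_
      ring
    rw [Finset.sum_congr rfl fun i _ => h3 i, Finset.sum_comm]
    apply Finset.sum_eq_zero
    intro a _
    rw [← h2 a]
    -- linearity
    have hlin : ∀ (f : IdxM Q → ℚ) (c : IdxM Q →₀ ℤ), (c.sum fun j m => (m : ℚ) * f j) =
        Finsupp.liftAddHom (fun j => (AddMonoidHom.mulRight (f j)).comp
          (Int.castAddHom ℚ)) c := by
      intro f c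
      rw [Finsupp.liftAddHom_apply]
      rfl
    rw [hlin (fun j => t a j.p (j.φ (gn j.n))), map_sum]
    refine Finset.sum_congr rfl fun i _ => ?_
    rw [map_zsmul, ← hlin, zsmul_eq_mul]
  have h1 : l (m • fun i => Kg π (ddf (F i) z)) = (m : ℚ) := by
    rw [map_nsmul, hl1, nsmul_eq_mul, mul_one]
  rw [sum_single] at h1
  have h2 : ∀ i, l (Pi.single i ((m • fun i => Kg π (ddf (F i) z)) i)) =
      (c i).sum (fun j n => (n : ℚ) * L i j.p (j.φ (gn j.n))) := by
    intro i
    rw [← hlΦ i (c i), ← hc i]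
    rfl
  rw [Finset.sum_congr rfl fun i _ => h2 i, key] at h1
  have h3 : (0 : ℚ) < m := by exact_mod_cast hm
  rw [← h1] at h3
  exact lt_irrefl _ h3

end Pool.Agent.SM5
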