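import Pool.Agent.SM5.St
import Pool.Agent.SM2.P_NUM2

/-!
# SM5, module NUM5: the numbers are rational, degree `0`, several homomorphisms to `ℤ` at once
-/

set_option autoImplicit false
set_option linter.unusedSectionVars false
set_option maxHeartbeats 4000000

open Matrix Pool.Agent.Lib25 Pool.Agent.KM Pool.Agent.SM1 Pool.Agent.SM1.NUM Pool.Agent.SM2
  Pool.Agent.SM2.NUM2 Pool.Agent.SM3

noncomputable section

namespace Pool.Agent.SM5

universe u v w

namespace NUM5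

/-- `Multiplicative ℤ` is torsion free. -/
theorem eq_one_of_fin {G : Type u} [Group G] (f : G →* Multiplicative ℤ) (g : G)
    (hg : IsOfFinOrder g) : f g = 1 := by
  obtain ⟨n, hn, h1⟩ := isOfFinOrder_iff_pow_eq_one.1 hg
  have h2 : (f g) ^ n = 1 := by rw [← map_pow, h1, map_one]
  have h3 : n • Multiplicative.toAdd (f g) = 0 := by
    rw [← toAdd_pow, h2, toAdd_one]
  have h4 : Multiplicative.toAdd (f g) = 0 := by
    rw [nsmul_eq_mul] at h3
    rcases mul_eq_zero.1 h3 with h5 | h5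
    · exfalso
      have : (n : ℤ) ≠ 0 := by exact_mod_cast hn.ne'
      exact this h5
    · exact h5
  exact Multiplicative.toAdd.injective (by rw [h4, toAdd_one])

/-- The numbers at one element `h`. -/
theorem main (hSUM : S_SUM5.{u, v}) (hRHO : S_RHO.{v}) (hRES1 : S_RES.{u, u, v})
    (hRES2 : S_RES.{v, 0, v}) (hRCM : S_RCM.{u, v}) (hTRV : S_TRV.{v})
    (hTRA : S_TRA.{u}) (hCWR : S_CWR.{u}) (hRSF : S_RSF.{u, v, 0})
    {G : Type u} [Group G] {Q : Type v} [Group Q] [Finite Q] (π : G →* Q)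
    (hπ : Function.Surjective π) {b : ℕ} (F : Fin b → G →* Multiplicative ℤ) (rr : ℕ)
    (hZ : ZWA π rr) (z : K0 (MonoidAlgebra ℤ G)) (l : Fin b → ℤ) (m : ℕ)
    (E : IdemMat (LG ℤ Q)) (k0 : ℕ)
    (hX : KNegOne.mk (K0.of E - K0.of (IdemMat.free _ k0)) =
      m • ∑ i, l i • KNegOne.mk (K0.map (mapL (grm π)) (K0.map (jf ℤ (F i)) z)))
    (h : Q) (hno : ∀ g c : G, IsOfFinOrder g → c * g = g * c → π g = h →
      ∑ i, l i * Multiplicative.toAdd (F i c) = 0) (hh : 1 < orderOf h) :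
    ∃ r : ℚ, ∀ (p : ℕ) [Fact p.Prime] (zz : Q → ℤ_[p]), p ∣ orderOf h →
      TrivOver ℤ_[p] E.mat zz → (zz h : ℚ_[p]) = (r : ℚ_[p]) := by
  classical
  obtain ⟨N, hN⟩ : ∃ N, N = orderOf h := ⟨_, rfl⟩
  rw [← hN] at hh ⊢
  have : NeZero N := ⟨by omega⟩
  have hpw : h ^ N = 1 := by rw [hN]; exact pow_orderOf_eq_one h
  obtain ⟨φ, hφi, hφg⟩ : ∃ φ : Cy N →* Q, Function.Injective φ ∧ φ (gn N) = h :=
    ⟨ZAD.hmg N h hpw, ZAD.hmg_inj hN.symm hpw, ZAD.hmg_gn N h hpw⟩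
  let _ : Fintype (Q ⧸ φ.range) := Fintype.ofFinite _
  obtain ⟨s, hs⟩ := exists_tr π hπ φ hφi
  obtain ⟨hs', q, hq, hqc⟩ := hRCM.2 π φ s hs
  obtain ⟨θ, hθ⟩ := hRES1 (A := ℤ) (φ.range.comap π).subtype s hs'
  obtain ⟨θ', hθ'⟩ := hRES2 (A := ℤ) φ (fun i => π (s i)) hs
  have hc := hqc θ θ' hθ hθ'
  obtain ⟨c, hc0, hcc⟩ := hTRV N hh φ (fun i => π (s i)) hs θ' hθ'
  obtain ⟨ρ, hρ⟩ := hRHO N hh
  -- the multiples of the images
  have key : ∀ F0 : IdemMat (MonoidAlgebra ℤ G), ∃ D : ℕ, 0 < D ∧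
      D • ρ (Kn θ' (Kg π (∑ i, l i • KNegOne.mk (K0.map (jf ℤ (F i)) (K0.of F0))))) = 0 := by
    intro F0
    have hB := blow_idem θ F0.idem
    obtain ⟨D, a, hD, hDa⟩ := hSUM N hh q (fun i => (F i).comp (φ.range.comap π).subtype) l rr
      (fun g hg => by
        have hgh : π (g : G) = h := by rw [← hq g, hg, hφg]
        by_cases hfin : IsOfFinOrder (g : G)
        · right
          refine ⟨fun i => eq_one_of_fin (F i) (g : G) hfin, fun c hc => ?_⟩
          exact hno (g : G) (c : G) hfin (congrArg Subtype.val hc) hgh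
        · left
          obtain ⟨M, hM, hMc, hC⟩ := hZ (g : G) hfin
          rw [hgh, ← hN] at hMc
          have h1 : CW M rr (cel g) :=
            hCWR (cinc (φ.range.comap π) g) (cinc_inj _ g) M rr (cel g) hC
          obtain ⟨v, W, hv, hW, hD⟩ := h1
          obtain ⟨W', hW'⟩ := hTRA rr g v W hW hD
          exact ⟨M, hM, hMc, v, W', hv, hW'⟩) (blow θ F0.mat) hB
    refine ⟨D, hD, ?_⟩
    have hi : ∀ i, ρ (Kn θ' (Kg π (KNegOne.mk (K0.map (jf ℤ (F i)) (K0.of F0))))) =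
        tcl N (fun p K => rg (cN N p (Nat.dvd_of_mem_primeFactors p.2)) (rd ((p : ℕ) ^ K)
          (psh q ((blow θ F0.mat).map (jf ℤ ((F i).comp (φ.range.comap π).subtype)))))
            (gn N)) := by
      intro i
      have hF' : F0.mat.map (jf ℤ (F i)) * F0.mat.map (jf ℤ (F i)) = F0.mat.map (jf ℤ (F i)) := by
        rw [← Matrix.map_mul, F0.idem]
      have hBL := blow_idem (lau θ) hF'
      have h1 : KNegOne.mk (K0.map (jf ℤ (F i)) (K0.of F0)) =
          ngo (F0.mat.map (jf ℤ (F i))) hF' := by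
        unfold ngo
        rw [of_eq_cl, map_cl]
      have hB' : psh q (blow (lau θ) (F0.mat.map (jf ℤ (F i)))) *
          psh q (blow (lau θ) (F0.mat.map (jf ℤ (F i)))) =
        psh q (blow (lau θ) (F0.mat.map (jf ℤ (F i)))) := by
        rw [← Matrix.map_mul, hBL]
      have hJ : (blow θ F0.mat).map (jf ℤ ((F i).comp (φ.range.comap π).subtype)) *
          (blow θ F0.mat).map (jf ℤ ((F i).comp (φ.range.comap π).subtype)) =
          (blow θ F0.mat).map (jf ℤ ((F i).comp (φ.range.comap π).subtype)) := by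
        rw [← Matrix.map_mul, hB]
      have hJ' : psh q ((blow θ F0.mat).map (jf ℤ ((F i).comp (φ.range.comap π).subtype))) *
          psh q ((blow θ F0.mat).map (jf ℤ ((F i).comp (φ.range.comap π).subtype))) =
          psh q ((blow θ F0.mat).map (jf ℤ ((F i).comp (φ.range.comap π).subtype))) := by
        rw [← Matrix.map_mul, hJ]
      have h2 : ngo (psh q (blow (lau θ) (F0.mat.map (jf ℤ (F i))))) hB' =
          ngo (psh q ((blow θ F0.mat).map (jf ℤ ((F i).comp (φ.range.comap π).subtype))))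
            hJ' := by
        have h3 := congrArg (Kg q) (hRSF (φ.range.comap π).subtype s hs' θ hθ (F i) F0.mat
          hBL hJ)
        rw [map_ngo, map_ngo] at h3
        exact h3
      rw [h1, res_ngo π q θ θ' hc (F0.mat.map (jf ℤ (F i))) hF' hB', h2, hρ]
    have hsum : ρ (Kn θ' (Kg π (∑ i, l i • KNegOne.mk (K0.map (jf ℤ (F i)) (K0.of F0))))) =
        tcl N (∑ i, l i • (fun (p : N.primeFactors) (K : ℕ) =>
          rg (cN N p (Nat.dvd_of_mem_primeFactors p.2)) (rd ((p : ℕ) ^ K)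
          (psh q ((blow θ F0.mat).map (jf ℤ ((F i).comp (φ.range.comap π).subtype)))))
            (gn N))) := by
      simp only [map_sum, map_zsmul, hi]
    rw [hsum]
    refine tcl_nsmul D _ a (fun p K => ?_)
    rw [← hDa p K (Nat.prime_of_mem_primeFactors p.2) (Nat.dvd_of_mem_primeFactors p.2)]
    congr 1
    rw [Finset.sum_apply, Finset.sum_apply]
    refine Finset.sum_congr rfl fun i _ => ?_
    rw [← zsmul_eq_mul]
    rfl
  obtain ⟨D, hD, hDz⟩ : ∃ D : ℕ, 0 < D ∧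
      D • ρ (Kn θ' (Kg π (∑ i, l i • KNegOne.mk (K0.map (jf ℤ (F i)) z)))) = 0 := by
    obtain ⟨F0, F', rfl⟩ := K0.exists_sub z
    obtain ⟨D, hD, h1⟩ := key F0
    obtain ⟨D', hD', h2⟩ := key F'
    refine ⟨D * D', Nat.mul_pos hD hD', ?_⟩
    have h3 : ∑ i, l i • KNegOne.mk (K0.map (jf ℤ (F i)) (K0.of F0 - K0.of F')) =
        ∑ i, l i • KNegOne.mk (K0.map (jf ℤ (F i)) (K0.of F0)) -
          ∑ i, l i • KNegOne.mk (K0.map (jf ℤ (F i)) (K0.of F')) := by
      rw [← Finset.sum_sub_distrib]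
      refine Finset.sum_congr rfl fun i _ => ?_
      rw [map_sub, map_sub, smul_sub]
    rw [h3, map_sub, map_sub, map_sub, smul_sub, mul_comm D D', mul_smul, h1,
      smul_zero, mul_comm D' D, mul_smul, h2, smul_zero, sub_zero]
  have hE : ρ (Kn θ' (KNegOne.mk (K0.of E))) = tcl N (fun p K =>
      rg (cN N p (Nat.dvd_of_mem_primeFactors p.2)) (rd ((p : ℕ) ^ K) (blow (lau θ') E.mat))
        (gn N)) := by
    have h1 : KNegOne.mk (K0.of E) = ngo E.mat E.idem := by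
      unfold ngo
      rw [of_eq_cl]
    rw [h1, Kn_ngo, hρ]
  have hI : ρ (Kn θ' (KNegOne.mk (K0.of (IdemMat.free (LG ℤ Q) k0)))) = 0 := by
    have h1 : KNegOne.mk (K0.of (IdemMat.free (LG ℤ Q) k0)) =
        ngo (1 : Matrix (Fin k0) (Fin k0) (LG ℤ Q)) (Matrix.one_mul 1) := by
      unfold ngo
      rw [of_eq_cl]
      rfl
    rw [h1, Kn_ngo, hρ, tcl_eq_zero]
    refine ⟨0, fun p K => ?_⟩
    have : Fact (p : ℕ).Prime := ⟨Nat.prime_of_mem_primeFactors p.2⟩
    rw [hcc k0 1 (Matrix.one_mul 1) p (Nat.dvd_of_mem_primeFactors p.2) (fun _ => 0)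
      (trivOver_one k0 p) K, map_zero, mul_zero, Int.cast_zero]
  have hKg : Kg π (∑ i, l i • KNegOne.mk (K0.map (jf ℤ (F i)) z)) =
      ∑ i, l i • KNegOne.mk (K0.map (mapL (grm π)) (K0.map (jf ℤ (F i)) z)) := by
    rw [map_sum]
    refine Finset.sum_congr rfl fun i _ => ?_
    rw [map_zsmul]
    rfl
  have hfin : D • tcl N (fun p K =>
      rg (cN N p (Nat.dvd_of_mem_primeFactors p.2)) (rd ((p : ℕ) ^ K) (blow (lau θ') E.mat))
        (gn N)) = 0 := by
    rw [← hE]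
    have h1 : ρ (Kn θ' (KNegOne.mk (K0.of E))) =
        ρ (Kn θ' (KNegOne.mk (K0.of E - K0.of (IdemMat.free _ k0)))) := by
      rw [map_sub, map_sub, map_sub, hI, sub_zero]
    rw [h1, hX, ← hKg, map_nsmul, map_nsmul, smul_comm, hDz, smul_zero]
  obtain ⟨a, ha⟩ := exists_of_tcl_nsmul D _ hfin
  refine ⟨(a : ℚ) / ((D * c : ℕ) : ℚ), fun p _ zz hp hzz => ?_⟩
  have hpN : p ∈ N.primeFactors := by
    rw [Nat.mem_primeFactors]
    exact ⟨Fact.out, hp, by omega⟩
  have h1 : ((D * c : ℕ) : ℤ_[p]) * zz h = (a : ℤ_[p]) := by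
    rw [← PadicInt.ext_of_toZModPow]
    intro K
    have h2 := ha ⟨p, hpN⟩ K
    have h3 := hcc E.n E.mat E.idem p hp zz hzz K
    rw [hφg] at h3
    dsimp only at h2
    rw [h3] at h2
    rw [map_mul, map_natCast, map_intCast, Nat.cast_mul, mul_assoc]
    exact h2
  have h2 : ((D * c : ℕ) : ℚ_[p]) * (zz h : ℚ_[p]) = (a : ℚ_[p]) := by
    rw [← PadicInt.coe_natCast, ← PadicInt.coe_mul, h1, PadicInt.coe_intCast]
  have h0 : ((D * c : ℕ) : ℚ_[p]) ≠ 0 := by
    rw [Nat.cast_ne_zero]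
    exact (Nat.mul_pos hD hc0).ne'
  rw [Rat.cast_div, Rat.cast_intCast, Rat.cast_natCast, eq_div_iff h0, mul_comm]
  exact h2

end NUM5

/-- NUM5. -/
theorem t_NUM5 (hSUM : S_SUM5.{u, v}) (hRHO : S_RHO.{v}) (hRES1 : S_RES.{u, u, v})
    (hRES2 : S_RES.{v, 0, v}) (hRCM : S_RCM.{u, v}) (hTRV : S_TRV.{v})
    (hTRA : S_TRA.{u}) (hCWR : S_CWR.{u}) (hRSF : S_RSF.{u, v, 0}) : S_NUM5.{u, v} := by
  classical
  intro G _ Q _ _ π hπ b F rr hZ z l X m hX w hw
  obtain ⟨E, k0, y, h1, -, h3⟩ := hw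
  rw [h1] at hX
  have key : ∀ h : Q, ∃ r : ℚ, (∀ g c : G, IsOfFinOrder g → c * g = g * c → π g = h →
      ∑ i, l i * Multiplicative.toAdd (F i c) = 0) → ∀ (p : ℕ) [Fact p.Prime] (zz : Q → ℤ_[p]),
      p ∣ orderOf h → TrivOver ℤ_[p] E.mat zz → (zz h : ℚ_[p]) = (r : ℚ_[p]) := by
    intro h
    by_cases hno : ∀ g c : G, IsOfFinOrder g → c * g = g * c → π g = h →
      ∑ i, l i * Multiplicative.toAdd (F i c) = 0
    · by_cases hh : 1 < orderOf h
      · obtain ⟨r, hr⟩ := NUM5.main hSUM hRHO hRES1 hRES2 hRCM hTRV hTRA hCWR hRSF π hπ F rr hZ z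
          l m E k0 hX h hno hh
        exact ⟨r, fun _ => hr⟩
      · refine ⟨0, fun _ p hp zz hd => ?_⟩
        exfalso
        have h4 : orderOf h = 1 := by
          have := orderOf_pos h
          omega
        rw [h4] at hd
        exact hp.out.one_lt.ne' (Nat.dvd_one.1 hd)
    · exact ⟨0, fun hno' => absurd hno' hno⟩
  choose r hr using key
  refine ⟨fun h => y h - r h, fun p _ h hp hno => ?_⟩
  obtain ⟨zz, hzz, hw⟩ := h3 p
  rw [hw h, hr h hno p zz hp hzz, Rat.cast_sub]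

end Pool.Agent.SM5
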