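import Pool.Agent.SM5.St

set_option autoImplicit false

noncomputable section

namespace Pool.Agent.SM5

namespace ORT

theorem clear {b : ℕ} (w : Fin b → ℚ) :
    ∃ (n : ℕ) (v : Fin b → ℤ), 0 < n ∧ ∀ i, (v i : ℚ) = (n : ℚ) * w i := by
  classical
  have h : ∀ i, ∃ z : ℤ, (z : ℚ) = ((∏ j, (w j).den : ℕ) : ℚ) * w i := by
    intro i
    obtain ⟨k, hk⟩ : (w i).den ∣ ∏ j, (w j).den := Finset.dvd_prod_of_mem _ (Finset.mem_univ i)
    refine ⟨(w i).num * k, ?_⟩
    have h1 : w i * (w i).den = (w i).num := Rat.mul_den_eq_num (w i)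
    rw [hk]
    push_cast
    rw [← h1]
    ring
  choose v hv using h
  exact ⟨∏ j, (w j).den, v, Finset.prod_pos fun j _ => (w j).den_pos, hv⟩

end ORT

theorem t_ORT : S_ORT := by
  classical
  intro b D
  let V : Submodule ℚ (Fin b → ℚ) :=
    { carrier := {w | ∀ d ∈ D, ∑ i, (d i : ℚ) * w i = 0}
      add_mem' := by
        intro x y hx hy d hd
        have h1 := hx d hd
        have h2 := hy d hd
        simp only [Pi.add_apply, mul_add, Finset.sum_add_distrib, h1, h2, add_zero]
      zero_mem' := by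
        intro d _
        simp
      smul_mem' := by
        intro c x hx d hd
        have h1 := hx d hd
        have h2 : ∑ i, (d i : ℚ) * (c • x) i = c * ∑ i, (d i : ℚ) * x i := by
          rw [Finset.mul_sum]
          refine Finset.sum_congr rfl fun i _ => ?_
          rw [Pi.smul_apply, smul_eq_mul]
          ring
        rw [h2, h1, mul_zero] }
  have hV : ∀ w, w ∈ V ↔ ∀ d ∈ D, ∑ i, (d i : ℚ) * w i = 0 := fun w => Iff.rfl
  let e := Module.finBasis ℚ V
  choose n v hn hv using fun a => ORT.clear (e a).1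
  obtain ⟨P, hP⟩ := LinearMap.exists_leftInverse_of_injective V.subtype V.ker_subtype
  refine ⟨Module.finrank ℚ V, v, fun a k => e.repr (P (Pi.single k 1)) a / n a, ?_, ?_⟩
  · intro a d hd
    have h1 := (hV _).1 (e a).2 d hd
    have h2 : ((∑ i, v a i * d i : ℤ) : ℚ) = 0 := by
      push_cast
      have h3 : ∑ i, (v a i : ℚ) * (d i : ℚ) = (n a : ℚ) * ∑ i, (d i : ℚ) * (e a).1 i := by
        rw [Finset.mul_sum]
        refine Finset.sum_congr rfl fun i _ => ?_
        rw [hv]
        ring
      rw [h3, h1, mul_zero]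
    exact_mod_cast h2
  · intro w hw i
    have hwV : w ∈ V := (hV w).2 hw
    have h1 : P w = ⟨w, hwV⟩ := by
      have := LinearMap.congr_fun hP ⟨w, hwV⟩
      simpa using this
    have h2 : w = ∑ k, w k • (Pi.single k 1 : Fin b → ℚ) := by
      funext j
      simp [Finset.sum_apply, Pi.single_apply]
    have h3 : ∀ a, e.repr ⟨w, hwV⟩ a = ∑ k, w k * e.repr (P (Pi.single k 1)) a := by
      intro a
      rw [← h1]
      conv_lhs => rw [h2]
      rw [map_sum, map_sum, Finsupp.finsetSum_apply]
      refine Finset.sum_congr rfl fun k _ => ?_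
      rw [map_smul, map_smul, Finsupp.smul_apply, smul_eq_mul]
    have h4 : w i = ∑ a, e.repr ⟨w, hwV⟩ a * (e a).1 i := by
      have h5 := congrArg (fun x : V => x.1 i) (e.sum_repr ⟨w, hwV⟩)
      simp only [Submodule.coe_sum, Finset.sum_apply, Submodule.coe_smul, Pi.smul_apply,
        smul_eq_mul] at h5
      exact h5.symm
    rw [h4]
    refine Finset.sum_congr rfl fun a _ => ?_
    have hna : (n a : ℚ) ≠ 0 := Nat.cast_ne_zero.2 (hn a).ne'
    rw [h3 a, hv a i]
    have h6 : (∑ k, e.repr (P (Pi.single k 1)) a / (n a : ℚ) * w k) * (n a : ℚ) =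
        ∑ k, w k * e.repr (P (Pi.single k 1)) a := by
      rw [Finset.sum_mul]
      refine Finset.sum_congr rfl fun k _ => ?_
      field_simp
    rw [← h6]
    ring

end Pool.Agent.SM5
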