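import Pool.Agent.SM5.St
import Pool.Agent.SM3.P_FCZ

/-!
# SM5, module RGA (helper48): the invariant of the image under `jf f` is additive in `f` at an element
on which the homomorphisms vanish
-/

set_option autoImplicit false
set_option linter.unusedSectionVars false

open Matrix Pool.Agent.Lib25 Pool.Agent.KM Pool.Agent.SM1 Pool.Agent.SM2 Pool.Agent.SM3
open Pool.Agent.SUR (ZM)

noncomputable section

namespace Pool.Agent.SM5

universe u v w

namespace RGA

open Pool.Agent.SM3.FCZ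

/-- The matrix `θ`. -/
def thE {G : Type*} [Group G] {ι : Type*} [Fintype ι] [DecidableEq ι]
    (E : Matrix ι ι (MonoidAlgebra ℤ G)) (p K : ℕ) (q : G →* Cy p) :
    Matrix ι ι (MonoidAlgebra (ZMod (p ^ K)) (G × Cy p)) :=
  (E.map (red (p ^ K) G)).map (i1 (ZMod (p ^ K)) q) *
      (E.map (red (p ^ K) G)).map (i0 (ZMod (p ^ K)) G p) +
    (1 - (E.map (red (p ^ K) G)).map (i1 (ZMod (p ^ K)) q)) *
      (1 - (E.map (red (p ^ K) G)).map (i0 (ZMod (p ^ K)) G p))

theorem core (hUNI : Pool.Agent.SM1.S_UNI.{u, w}) {G : Type u} [Group G]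
    (f : G →* Multiplicative ℤ) {ι : Type w} [Fintype ι] [DecidableEq ι]
    (E : Matrix ι ι (MonoidAlgebra ℤ G)) (hE : E * E = E) {p K : ℕ} (hp : p.Prime)
    (q : G →* Cy p) (g : G) (hg : f g = 1) :
    rg q (rd (p ^ K) (E.map (jf ℤ f))) g =
      tau ((g, q g) : G × Cy p) (trace ((E.map (red (p ^ K) G)).map (i0 (ZMod (p ^ K)) G p) *
        Ring.inverse (thE E p K q) *
        (thE E p K q).map (del (f.comp (MonoidHom.fst G (Cy p)))))) := by
  -- the group `P`
  let f' : G × Cy p →* Multiplicative ℤ := f.comp (MonoidHom.fst G (Cy p))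
  let γ : G × Cy p := (g, q g)
  let e : Matrix ι ι (MonoidAlgebra (ZMod (p ^ K)) G) := E.map (red (p ^ K) G)
  let E' : Matrix ι ι (LG (ZMod (p ^ K)) G) := rd (p ^ K) (E.map (jf ℤ f))
  have hE' : E' = e.map (jf (ZMod (p ^ K)) f) := by
    ext1 i j
    exact red_jf (p ^ K) f (E i j)
  have hid : E' * E' = E' := by
    have h1 : E' * E' = ((E * E).map (jf ℤ f)).map (mapL (red (p ^ K) G)) := by
      rw [Matrix.map_mul, Matrix.map_mul]
    rw [h1, hE]
  obtain ⟨-, u1, u2, u3, -⟩ := hUNI hp q E' hid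
  let τ : MonoidAlgebra (ZMod (p ^ K)) (G × Cy p) →+* LG (ZMod (p ^ K)) (G × Cy p) :=
    jf (ZMod (p ^ K)) f'
  let ε := eps (ZMod (p ^ K)) (G × Cy p)
  let e0 := e.map (i0 (ZMod (p ^ K)) G p)
  let e1 := e.map (i1 (ZMod (p ^ K)) q)
  have hE0 : E0 p E' = e0.map τ := by
    rw [hE']
    ext1 i j
    exact i0_jf p f (e i j)
  have hE1 : E1 q E' = e1.map τ := by
    rw [hE']
    ext1 i j
    exact i1_jf q f (e i j)
  let θ := thE E p K q
  have hone : (1 : Matrix ι ι (MonoidAlgebra (ZMod (p ^ K)) (G × Cy p))).map τ = 1 :=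
    Matrix.map_one _ (map_zero τ) (map_one τ)
  have hθ : th q E' = θ.map τ := by
    unfold th
    rw [hE0, hE1]
    change _ = (e1 * e0 + (1 - e1) * (1 - e0)).map τ
    rw [Matrix.map_add _ (map_add τ), Matrix.map_mul, Matrix.map_mul, Matrix.map_sub _ (map_sub τ),
      Matrix.map_sub _ (map_sub τ), hone]
  have hετ : ∀ X : Matrix ι ι (MonoidAlgebra (ZMod (p ^ K)) (G × Cy p)), (X.map τ).map ε = X := by
    intro X
    ext1 i j
    exact eps_jf f' (X i j)
  have hone' : (1 : Matrix ι ι (LG (ZMod (p ^ K)) (G × Cy p))).map ε = 1 :=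
    Matrix.map_one _ (map_zero ε) (map_one ε)
  let φ := (Ring.inverse (th q E')).map ε
  have v1 : θ * φ = 1 := by
    have h1 := congrArg (fun X => X.map ε) u1
    simp only [Matrix.map_mul] at h1
    rw [hone'] at h1
    have h2 : (th q E').map ε = θ := by rw [hθ, hετ]
    rw [h2] at h1
    exact h1
  have v2 : φ * θ = 1 := by
    have h1 := congrArg (fun X => X.map ε) u2
    simp only [Matrix.map_mul] at h1
    rw [hone'] at h1
    have h2 : (th q E').map ε = θ := by rw [hθ, hετ]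
    rw [h2] at h1
    exact h1
  have hφ : Ring.inverse θ = φ := Ring.inverse_unit ⟨θ, φ, v1, v2⟩
  have hinv : Ring.inverse (th q E') = φ.map τ := by
    have h1 : φ.map τ * th q E' = 1 := by
      rw [hθ, ← Matrix.map_mul, v2, hone]
    calc Ring.inverse (th q E') = (φ.map τ * th q E') * Ring.inverse (th q E') := by
          rw [h1, one_mul]
      _ = φ.map τ := by rw [mul_assoc, u1, mul_one]
  have hD : (th q E').map DL = (θ.map (del f')).map τ := by
    rw [hθ]
    ext1 i j
    exact DL_jf f' (θ i j)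
  have hOM : OM q E' = τ (trace (e0 * φ * θ.map (del f'))) := by
    unfold OM
    rw [hE0, hinv, hD, ← Matrix.map_mul, ← Matrix.map_mul]
    exact (AddMonoidHom.map_trace τ.toAddMonoidHom _).symm
  have hγ1 : f' γ = 1 := hg
  change rg q E' g = tau γ (trace (e0 * Ring.inverse θ * θ.map (del f')))
  rw [hφ]
  unfold rg
  rw [hOM]
  exact tauL_jf f' γ hγ1 (trace (e0 * φ * θ.map (del f')))

theorem del_sum {A : Type*} [CommRing A] {Γ : Type*} [Group Γ] {b : ℕ}
    (F : Fin b → Γ →* Multiplicative ℤ) (l : Fin b → ℤ) (f : Γ →* Multiplicative ℤ)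
    (hf : ∀ c : Γ, Multiplicative.toAdd (f c) = ∑ i, l i * Multiplicative.toAdd (F i c))
    (x : MonoidAlgebra A Γ) : del f x = ∑ i, l i • del (F i) x := by
  induction x using MonoidAlgebra.induction_linear with
  | zero => simp
  | add a b ha hb =>
    rw [map_add, ha, hb, ← Finset.sum_add_distrib]
    refine Finset.sum_congr rfl fun i _ => ?_
    rw [map_add, smul_add]
  | single g a =>
    rw [del_single, hf, Finset.sum_smul]
    refine Finset.sum_congr rfl fun i _ => ?_
    rw [del_single, mul_smul]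

end RGA

open RGA Pool.Agent.SM3.FCZ in
theorem t_RGA (hUNI : Pool.Agent.SM1.S_UNI.{u, w}) : S_RGA.{u, w} := by
  intro G _ b F l f hf ι _ _ E hE p K hp q g hFg
  have hfg : f g = 1 := by
    have h1 := hf g
    have h2 : ∑ i, l i * Multiplicative.toAdd (F i g) = 0 := by
      refine Finset.sum_eq_zero fun i _ => ?_
      rw [hFg i, toAdd_one, mul_zero]
    rw [h2] at h1
    exact toAdd_eq_zero.1 h1
  rw [core hUNI f E hE hp q g hfg]
  have h3 : ∀ i, rg q (rd (p ^ K) (E.map (jf ℤ (F i)))) g = _ := fun i =>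
    core hUNI (F i) E hE hp q g (hFg i)
  simp only [h3]
  let Ψ : Matrix ι ι (MonoidAlgebra (ZMod (p ^ K)) (G × Cy p)) →+ ZMod (p ^ K) :=
    ((tau (k := ZMod (p ^ K)) ((g, q g) : G × Cy p)).comp
      (Matrix.traceAddMonoidHom ι (MonoidAlgebra (ZMod (p ^ K)) (G × Cy p)))).comp
        (AddMonoidHom.mulLeft ((E.map (red (p ^ K) G)).map (i0 (ZMod (p ^ K)) G p) *
          Ring.inverse (thE E p K q)))
  have h4 : (thE E p K q).map (del (f.comp (MonoidHom.fst G (Cy p)))) =
      ∑ i, l i • (thE E p K q).map (del ((F i).comp (MonoidHom.fst G (Cy p)))) := by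
    ext1 j k
    rw [Matrix.map_apply, Matrix.sum_apply]
    exact del_sum (fun i => (F i).comp (MonoidHom.fst G (Cy p))) l
      (f.comp (MonoidHom.fst G (Cy p))) (fun c => hf c.1) _
  have h5 : Ψ ((thE E p K q).map (del (f.comp (MonoidHom.fst G (Cy p))))) =
      ∑ i, (l i : ZMod (p ^ K)) *
        Ψ ((thE E p K q).map (del ((F i).comp (MonoidHom.fst G (Cy p))))) := by
    rw [h4, map_sum]
    refine Finset.sum_congr rfl fun i _ => ?_
    rw [map_zsmul, zsmul_eq_mul]
  exact h5.symm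

end Pool.Agent.SM5
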