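import Pool.Agent.SM5.St
import Pool.Agent.SM1.P_SUM

/-!
# SM5_SUM5: the numbers of a linear combination of images in `ℤ[C_N]` are rational, independent of `p`
and `K`
-/

set_option autoImplicit false
set_option linter.unusedSectionVars false

open Matrix Pool.Agent.Lib25 Pool.Agent.KM Pool.Agent.SM1 Pool.Agent.SM2 Pool.Agent.SM3
open Pool.Agent.SUR (ZM bil bilHom th Cub altS IK DegV IsWtA WtAtA)

noncomputable section

namespace Pool.Agent.SM5

universe u v w

open Pool.Agent.SM1.SUM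

namespace SUM5

/-- Reduction modulo a smaller power of `p`. -/
theorem comp1 (hFUG : S_FUG.{u, u, w}) {G : Type u} [Group G] {ι : Type w} [Fintype ι]
    [DecidableEq ι] (E : Matrix ι ι (LG ℤ G)) (hE : E * E = E) {p : ℕ} (hp : p.Prime)
    (q : G →* Cy p) (K j : ℕ) (g : G) :
    rg q (rd (p ^ K) E) g =
      ZMod.castHom (pow_dvd_pow p (Nat.le_add_right K j)) (ZMod (p ^ K))
        (rg q (rd (p ^ (K + j)) E) g) := by
  have hrdidem : ∀ K : ℕ, rd (p ^ K) E * rd (p ^ K) E = rd (p ^ K) E := by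
    intro K
    rw [← Matrix.map_mul, hE]
  set f := ZMod.castHom (pow_dvd_pow p (Nat.le_add_right K j)) (ZMod (p ^ K)) with hf
  have h1 := hFUG (K := K + j) (K' := K) hp f (MonoidHom.id G) q q rfl
    (rd (p ^ (K + j)) E) (hrdidem _)
  have h2 : (rd (p ^ (K + j)) E).map (mapL (cgm f (MonoidHom.id G))) = rd (p ^ K) E := by
    refine Matrix.ext fun i k => ?_
    change mapL _ (mapL _ (E i k)) = mapL _ (E i k)
    apply lco_ext
    intro n
    rw [lco_mapL, lco_mapL, lco_mapL]
    unfold red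
    rw [cgm_comp]
    congr 2
    exact Subsingleton.elim _ _
  rw [h2] at h1
  unfold rg
  rw [h1, tauL, AddMonoidHom.comp_apply, coeffZero_mapL]
  have h3 : (MonoidHom.id G).prodMap (MonoidHom.id (Cy p)) = MonoidHom.id (G × Cy p) := by
    ext x <;> rfl
  rw [h3, tau_cgm_id]
  rfl

/-- The push-forward to `ℤ[C_N]`. -/
theorem push1 (hFUG0 : S_FUG.{u, 0, w}) {G : Type u} [Group G] {ι : Type w} [Fintype ι]
    [DecidableEq ι] (E : Matrix ι ι (LG ℤ G)) (hE : E * E = E) {N : ℕ} (φ : G →* Cy N) {p : ℕ}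
    (hp : p.Prime) (hpN : p ∣ N) (K : ℕ) :
    rg (cN N p hpN) (rd (p ^ K) (psh φ E)) (gn N) =
      tau (gn N, cN N p hpN (gn N)) (cgm (RingHom.id _) (φ.prodMap (MonoidHom.id (Cy p)))
        (coeffZero (OM ((cN N p hpN).comp φ) (rd (p ^ K) E)))) := by
  have hrdidem : rd (p ^ K) E * rd (p ^ K) E = rd (p ^ K) E := by
    rw [← Matrix.map_mul, hE]
  have h1 := hFUG0 (K := K) (K' := K) hp (RingHom.id _) φ ((cN N p hpN).comp φ) (cN N p hpN) rfl
    (rd (p ^ K) E) hrdidem
  have h2 : (rd (p ^ K) E).map (mapL (cgm (RingHom.id _) φ)) = rd (p ^ K) (psh φ E) := by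
    refine Matrix.ext fun i k => ?_
    change mapL _ (mapL _ (E i k)) = mapL _ (mapL _ (E i k))
    apply lco_ext
    intro n
    rw [lco_mapL, lco_mapL, lco_mapL, lco_mapL]
    have h3 : ∀ x : MonoidAlgebra ℤ G, grm φ x = cgm (RingHom.id ℤ) φ x := by
      intro x
      unfold cgm
      rw [RingHom.comp_apply]
      congr 1
      induction x using MonoidAlgebra.induction_linear with
      | zero => simp
      | add a b ha hb => rw [map_add, ← ha, ← hb]
      | single g a => rw [MonoidAlgebra.mapRingHom_single]; rfl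
    unfold red
    rw [h3, cgm_comp, cgm_comp]
    rfl
  rw [h2] at h1
  unfold rg
  rw [h1, tauL, AddMonoidHom.comp_apply, coeffZero_mapL]

end SUM5

open SUM5

open scoped Classical in
theorem t_SUM5 (hFUG0 : S_FUG.{u, 0, w}) (hFUG : S_FUG.{u, u, w}) (hR2C : S_R2C.{u, w})
    (hLFT : S_LFT.{u, w}) (hFS2 : S_FS2.{u, w}) (hCHI : S_CHI) (hFCZ : S_FCZ.{u, w})
    (hRGA : S_RGA.{u, w}) : S_SUM5.{u, w} := by
  intro G _ N hN φ b Fh l r hφ ι _ _ E0' hE0'
  obtain ⟨E, hEdef⟩ : ∃ E : Fin b → Matrix ι ι (LG ℤ G), E = fun i => E0'.map (jf ℤ (Fh i)) :=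
    ⟨_, rfl⟩
  have hEi : ∀ i, E0'.map (jf ℤ (Fh i)) = E i := fun i => by rw [hEdef]
  have hE : ∀ i, E i * E i = E i := fun i => by rw [← hEi, ← Matrix.map_mul, hE0']
  have hXex : ∀ i, ∃ X : Matrix ι ι (LM (FreeMonoid G)), LfE r (E i) X :=
    fun i => hLFT (E i) (hE i) r
  choose X hX using hXex
  have hF1ex : ∀ i, ∃ F : Finset G, ∀ (r : ℕ) (g : G) {A : Type} [CommRing A] (v : A)
      (W : FreeMonoid G → FreeMonoid G → A), WtG r g v W → (∀ x ∈ F, ¬ IsConj x g) →
      kapM W (X i) = 0 := fun i => hFS2 (X i)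
  choose F1 hF1 using hF1ex
  -- the linear combination of the homomorphisms
  obtain ⟨f0, hf0⟩ : ∃ f0 : G →* Multiplicative ℤ, ∀ c : G,
      Multiplicative.toAdd (f0 c) = ∑ i, l i * Multiplicative.toAdd (Fh i c) :=
    ⟨{ toFun := fun c => Multiplicative.ofAdd (∑ i, l i * Multiplicative.toAdd (Fh i c))
       map_one' := by simp
       map_mul' := fun x y => by
        simp only [map_mul, toAdd_mul, mul_add, Finset.sum_add_distrib, ofAdd_add] },
      fun c => rfl⟩
  obtain ⟨F2, hF2⟩ := hFCZ f0 E0' hE0'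
  set F0 : Finset G := (Finset.univ.biUnion F1) ∪ F2 with hF0def
  simp only [hEi]
  have hcN' : ∀ (p : ℕ) (hpN : p ∣ N), cN N p hpN (gn N) = Multiplicative.ofAdd 1 := by
    intro p hpN
    change Multiplicative.ofAdd (ZMod.castHom hpN (ZMod p) 1) = _
    rw [map_one]
  have hne1' : ∀ (p : ℕ), p.Prime → (Multiplicative.ofAdd (1 : ZMod p)) ≠ 1 := by
    intro p hp
    have : Fact p.Prime := ⟨hp⟩
    intro h
    exact one_ne_zero (α := ZMod p) (Multiplicative.ofAdd.injective h)
  -- the integers `D_g`, `a_g`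
  have hex : ∀ g : G, ∃ (v a : ℤ), φ g = gn N → (0 < v ∧
      (∀ (p K : ℕ) (hpN : p ∣ N), p.Prime →
        (v : ZMod (p ^ K)) * ∑ i, (l i : ZMod (p ^ K)) *
          rg ((cN N p hpN).comp φ) (rd (p ^ K) (E i)) g = (a : ZMod (p ^ K))) ∧
      ((∀ x ∈ F0, ¬ IsConj x g) → a = 0)) := by
    intro g
    by_cases hg : φ g = gn N
    · rcases hφ g hg with ⟨M, hM, hMN, v, W, hv, hW⟩ | ⟨hFg, hfg⟩
      swap
      · have hfg' : ∀ c : G, c * g = g * c → f0 c = 1 := by
          intro c hc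
          apply Multiplicative.toAdd.injective
          rw [hf0, hfg c hc, toAdd_one]
        obtain ⟨a, ha0, ha⟩ := hF2 g hfg'
        refine ⟨1, a, fun _ => ⟨one_pos, ?_, ?_⟩⟩
        · intro p K hpN hp
          rw [Int.cast_one, one_mul]
          have h1 := hRGA Fh l f0 hf0 E0' hE0' (p := p) (K := K) hp ((cN N p hpN).comp φ) g hFg
          simp only [hEi] at h1
          rw [h1]
          refine ha hp ((cN N p hpN).comp φ) ?_
          change cN N p hpN (φ g) ≠ 1
          rw [hg, hcN']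
          exact hne1' p hp
        · intro hx
          exact ha0 fun x hxF => hx x (Finset.mem_union_right _ hxF)
      obtain ⟨hc1, hc2, hc3⟩ := hCHI M hM
      obtain ⟨y, m, hm, hym⟩ := hc2 v hv
      obtain ⟨k, a, hka⟩ := hc3 (y * ∑ i, ((l i : ℤ) : ZM M) * kapM W (X i))
      refine ⟨((M ^ k * m : ℕ) : ℤ), a, fun _ => ⟨?_, ?_, ?_⟩⟩
      · have : 0 < M ^ k * m := Nat.mul_pos (pow_pos hM k) hm
        exact_mod_cast this
      · intro p K hpN hp
        have hpM : ¬ p ∣ M := by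
          intro h
          have h1 : p ∣ Nat.gcd M N := Nat.dvd_gcd h hpN
          rw [hMN] at h1
          exact hp.one_lt.ne' (Nat.dvd_one.1 h1)
        obtain ⟨χ⟩ := hc1 p hp hpM K
        have hq : ((cN N p hpN).comp φ) g ≠ 1 := by
          change cN N p hpN (φ g) ≠ 1
          rw [hg, hcN']
          exact hne1' p hp
        have h1 : ∀ i, χ v * rg ((cN N p hpN).comp φ) (rd (p ^ K) (E i)) g =
            χ (kapM W (X i)) := fun i =>
          hR2C hp ((cN N p hpN).comp φ) g r χ v W hW hq (E i) (X i) (hX i) (hE i)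
        have h2 : ((((M ^ k * m : ℕ) : ℤ)) : ZMod (p ^ K)) = χ ((M : ZM M) ^ k * y) * χ v := by
          rw [← map_mul, mul_assoc, hym, map_mul, map_pow, map_natCast, map_natCast]
          push_cast
          ring
        have h3 : χ v * ∑ i, (l i : ZMod (p ^ K)) *
            rg ((cN N p hpN).comp φ) (rd (p ^ K) (E i)) g =
            χ (∑ i, ((l i : ℤ) : ZM M) * kapM W (X i)) := by
          rw [map_sum, Finset.mul_sum]
          apply Finset.sum_congr rfl
          intro i _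
          rw [map_mul, map_intCast, ← h1 i]
          ring
        rw [h2, mul_assoc, h3, ← map_mul, mul_assoc, hka, map_intCast]
      · intro hx
        have h1 : ∀ i, kapM W (X i) = 0 := fun i =>
          hF1 i r g v W hW fun x hxF => hx x (Finset.mem_union_left _
            (Finset.mem_biUnion.2 ⟨i, Finset.mem_univ i, hxF⟩))
        rw [Finset.sum_eq_zero fun i _ => by rw [h1 i, mul_zero], mul_zero, mul_zero] at hka
        have h2 : ((a : ZM M) : ℚ) = 0 := by rw [← hka]; rfl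
        have h3 : (a : ℚ) = 0 := by
          rw [← h2]
          rfl
        exact_mod_cast h3
    · exact ⟨0, 0, fun h => absurd h hg⟩
  choose v a hva using hex
  set F : Finset (ConjClasses G) :=
    (F0.image ConjClasses.mk).filter (fun C => φ (rep C) = gn N) with hFdef
  have hout : ∀ C : ConjClasses G, ConjClasses.mk (rep C) = C := mk_rep
  have hF : ∀ C ∈ F, φ (rep C) = gn N := fun C hC => (Finset.mem_filter.1 hC).2
  have hkap : ∀ g : G, φ g = gn N → ConjClasses.mk g ∉ F → a g = 0 := by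
    intro g hg hgF
    apply (hva g hg).2.2
    intro x hx hxg
    apply hgF
    rw [hFdef, Finset.mem_filter, Finset.mem_image]
    refine ⟨⟨x, hx, ConjClasses.mk_eq_mk_iff_isConj.2 hxg⟩, ?_⟩
    rw [← hg]
    exact map_conj φ (ConjClasses.mk_eq_mk_iff_isConj.1 (hout _))
  -- the constants
  set P0 : ℤ := ∏ C ∈ F, v (rep C) with hP0
  have hP0ne : P0 ≠ 0 := Finset.prod_ne_zero_iff.2 fun C hC => ((hva _ (hF C hC)).1).ne'
  set a0 : ℤ := ∑ C ∈ F, (∏ C' ∈ F.erase C, v (rep C')) * a (rep C) with ha0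
  refine ⟨(P0 * P0).toNat, P0 * a0, ?_, ?_⟩
  · have : 0 < P0 * P0 := mul_self_pos.2 hP0ne
    omega
  intro p K hp hpN
  have hNe : NeZero p := ⟨hp.ne_zero⟩
  set q : G →* Cy p := (cN N p hpN).comp φ with hq
  have hcN : cN N p hpN (gn N) = Multiplicative.ofAdd 1 := hcN' p hpN
  have hqg : ∀ g : G, φ g = gn N → q g = Multiplicative.ofAdd 1 := by
    intro g hg
    change cN N p hpN (φ g) = _
    rw [hg, hcN]
  -- the weight identity
  have hR : ∀ (K : ℕ) (g : G), φ g = gn N →
      (v g : ZMod (p ^ K)) * ∑ i, (l i : ZMod (p ^ K)) * rg q (rd (p ^ K) (E i)) g =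
        ((a g : ℤ) : ZMod (p ^ K)) := by
    intro K g hg
    exact (hva g hg).2.1 p K hpN hp
  -- compatibility
  have hcomp : ∀ (K j : ℕ) (g : G),
      (∑ i, (l i : ZMod (p ^ K)) * rg q (rd (p ^ K) (E i)) g) =
      ZMod.castHom (pow_dvd_pow p (Nat.le_add_right K j)) (ZMod (p ^ K))
        (∑ i, (l i : ZMod (p ^ (K + j))) * rg q (rd (p ^ (K + j)) (E i)) g) := by
    intro K j g
    rw [map_sum]
    apply Finset.sum_congr rfl
    intro i _
    rw [map_mul, map_intCast, ← comp1 hFUG (E i) (hE i) hp q K j g]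
  -- vanishing outside `F`
  have hvan : ∀ (K : ℕ) (g : G), φ g = gn N → ConjClasses.mk g ∉ F →
      (∑ i, (l i : ZMod (p ^ K)) * rg q (rd (p ^ K) (E i)) g) = 0 := by
    intro K g hg hgF
    obtain ⟨j, hj⟩ := divl hp ((hva g hg).1).ne'
    have h1 := hR (K + j) g hg
    rw [hkap g hg hgF, Int.cast_zero] at h1
    obtain ⟨R, hRR⟩ := ZMod.intCast_surjective
      (∑ i, (l i : ZMod (p ^ (K + j))) * rg q (rd (p ^ (K + j)) (E i)) g)
    rw [← hRR, ← Int.cast_mul, ZMod.intCast_zmod_eq_zero_iff_dvd] at h1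
    push_cast at h1
    have h2 := hj K R h1
    rw [hcomp K j g, ← hRR, map_intCast, ZMod.intCast_zmod_eq_zero_iff_dvd]
    push_cast
    exact h2
  -- push-forward
  have hpush : (∑ i, (l i : ZMod (p ^ K)) *
      rg (cN N p hpN) (rd (p ^ K) (psh φ (E i))) (gn N)) =
      ∑ C ∈ F, ∑ i, (l i : ZMod (p ^ K)) * rg q (rd (p ^ K) (E i)) (rep C) := by
    have hlin : ∀ γ : G × Cy p,
        tau γ (∑ i, l i • coeffZero (OM q (rd (p ^ K) (E i)))) =
        ∑ i, (l i : ZMod (p ^ K)) * tau γ (coeffZero (OM q (rd (p ^ K) (E i)))) := by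
      intro γ
      rw [map_sum]
      apply Finset.sum_congr rfl
      intro i _
      rw [map_zsmul, zsmul_eq_mul]
    have h1 : (∑ i, (l i : ZMod (p ^ K)) *
        rg (cN N p hpN) (rd (p ^ K) (psh φ (E i))) (gn N)) =
        tau (gn N, cN N p hpN (gn N)) (cgm (RingHom.id _) (φ.prodMap (MonoidHom.id (Cy p)))
          (∑ i, l i • coeffZero (OM q (rd (p ^ K) (E i))))) := by
      rw [map_sum, map_sum]
      apply Finset.sum_congr rfl
      intro i _
      rw [map_zsmul, map_zsmul, zsmul_eq_mul, push1 hFUG0 (E i) (hE i) φ hp hpN K]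
    rw [h1, tau_classes φ (cN N p hpN (gn N)) _ F hF]
    · apply Finset.sum_congr rfl
      intro C hC
      rw [hlin]
      apply Finset.sum_congr rfl
      intro i _
      unfold rg
      rw [hqg _ (hF C hC), hcN]
      rfl
    · intro g hg hgF
      have h4 := hvan K g hg hgF
      unfold rg at h4
      rw [hqg g hg] at h4
      rw [hlin, hcN]
      exact h4
  rw [hpush]
  have h1 : (((P0 * P0).toNat : ℕ) : ZMod (p ^ K)) = ((P0 * P0 : ℤ) : ZMod (p ^ K)) := by
    have h2 : (((P0 * P0).toNat : ℕ) : ℤ) = P0 * P0 := Int.toNat_of_nonneg (mul_self_nonneg P0)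
    conv_rhs => rw [← h2]
    rw [Int.cast_natCast]
  rw [h1, Int.cast_mul, Int.cast_mul, mul_assoc]
  congr 1
  rw [Finset.mul_sum, ha0, Int.cast_sum]
  apply Finset.sum_congr rfl
  intro C hC
  have h3 := hR K _ (hF C hC)
  rw [hP0, ← Finset.mul_prod_erase F _ hC, Int.cast_mul, Int.cast_mul, ← h3]
  ring

end Pool.Agent.SM5
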