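import Pool.Agent.SM3.All
import Pool.Agent.SM5.Fin5
import Pool.Agent.SM5.One
import Pool.Agent.SM5.P_FNS5
import Pool.Agent.SM5.P_NUM5
import Pool.Agent.SM5.P_SUM5
import Pool.Agent.SM5.P_RGA
import Pool.Agent.SM5.P_TR3
import Pool.Agent.SM5.P_CLA
import Pool.Agent.SM5.P_ORT

/-!
# MP_e40716_gt (SM5): the theorems
-/

set_option autoImplicit false

open Matrix Pool.Agent.Lib25 Pool.Agent.KM Pool.Agent.SM1 Pool.Agent.SM2 Pool.Agent.SM3
open Pool.Agent.SM4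

noncomputable section

namespace Pool.Agent.SM5

universe u v w

theorem all_RGA : S_RGA.{u, w} := t_RGA all_UNI
theorem all_SUM5 : S_SUM5.{u, w} :=
  t_SUM5 all_FUG all_FUG all_R2C all_LFT t_FS2 t_CHI all_FCZ all_RGA
theorem all_NUM5 : S_NUM5.{u, v} :=
  t_NUM5 all_SUM5 all_RHO t_RES t_RES t_RCM all_TRV t_TRA t_CWR t_RSF
theorem all_FNS5 : S_FNS5.{u, v} := t_FNS5 all_NUM5 t_TR3 t_CLA t_ORT all_GEN2 t_LPF t_TKA

/-- The theorem for one finite group. -/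
theorem seen {G : Type u} [Group G] {Q : Type v} [Group Q] [Finite Q] (h : LCX (Nat.card Q) G)
    (π : G →* Q) : (∀ x, SeenNeg π x) ∧ ∀ z, SeenZero π z :=
  ⟨xx_neg h π, xx_zero all_FNS5 h π⟩

/-- The theorem for the finite groups of order prime to a number. -/
theorem seen_prime {G : Type u} [Group G] (h : LCR G) :
    (∀ x : KNegOne (MonoidAlgebra ℤ G), ∃ M : ℕ, 0 < M ∧ ∀ (Q : Type v) [Group Q] [Finite Q]
      (π : G →* Q), M.Coprime (Nat.card Q) → SeenNeg π x) ∧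
    ∀ z : K0 (MonoidAlgebra ℤ G), ∃ M : ℕ, 0 < M ∧ ∀ (Q : Type v) [Group Q] [Finite Q]
      (π : G →* Q), M.Coprime (Nat.card Q) → SeenZero π z :=
  ⟨x_prime h, xx_zero_prime all_FNS5 h⟩

/-- One element for all finite groups. -/
theorem one {G : Type u} [Group G] (hT : FewTors G) (h : ∀ N : ℕ, 0 < N → LCX N G) :
    (∀ x : KNegOne (MonoidAlgebra ℤ G), OneNeg.{u, v} 1 x) ∧
    (Group.FG G → ∀ z : K0 (MonoidAlgebra ℤ G), OneZero.{u, v} 1 z) :=
  ⟨fun x => one_neg hT 1 x fun _ _ _ π _ => xx_neg (h _ Nat.card_pos) π x,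
    fun hG z => one_zero hT hG 1 z fun _ _ _ π _ => xx_zero all_FNS5 (h _ Nat.card_pos) π z⟩

/-- One element for all finite groups of order prime to a number. -/
theorem one_prime {G : Type u} [Group G] (hT : FewTors G) (h : LCR G) :
    (∀ x : KNegOne (MonoidAlgebra ℤ G), ∃ M : ℕ, 0 < M ∧ OneNeg.{u, v} M x) ∧
    (Group.FG G → ∀ z : K0 (MonoidAlgebra ℤ G), ∃ M : ℕ, 0 < M ∧ OneZero.{u, v} M z) := by
  refine ⟨fun x => ?_, fun hG z => ?_⟩
  · obtain ⟨M, hM, h1⟩ := (seen_prime.{u, v} h).1 x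
    exact ⟨M, hM, one_neg hT M x h1⟩
  · obtain ⟨M, hM, h1⟩ := (seen_prime.{u, v} h).2 z
    exact ⟨M, hM, one_zero hT hG M z h1⟩

end Pool.Agent.SM5
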