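import Pool.Agent.SM4.TDefs
import Pool.Agent.SM2.St2

/-!
# MP_e40716_gt (SM5): the conditions `LCX` and `LCR`; Thompson's group `V`; piecewise projective maps
-/

set_option autoImplicit false

namespace Pool.Agent.SM5

open Pool.Agent.SM2 Pool.Agent.SM4 Stream'

universe u

/-- The condition on the element `g` with centraliser `C`, for a subring `A` of a field and `n > 0`: some
homomorphism `C → ℤ` is not `0` at `g`, or some homomorphism `C → GL_k(A)` maps `g` to an element of infinite
order, where `k = n` or the groups `H^(2 j + 1)(C; ℤ[1/M])`, `j ≥ n`, `M > 0`, are torsion groups. -/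
def CX {F : Type u} [Field F] (A : Subring F) (n : ℕ) {G : Type u} [Group G] (g : G) : Prop :=
  (∃ f : Subgroup.centralizer {g} →* Multiplicative ℤ, f (cel g) ≠ 1) ∨
  ∃ (k : ℕ) (ρ : Subgroup.centralizer {g} →* Matrix (Fin k) (Fin k) A),
    (k = n ∨ TorH n (Subgroup.centralizer {g})) ∧ ¬IsOfFinOrder (ρ (cel g))

/-- The condition on the group `G` and the number `N`: every finitely generated subgroup of `G` is contained
in a subgroup `G1` for which there is an `n > 0` such that for all `g ∈ G1` of infinite order `CX A n g` holds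
for some finitely generated subring `A` of a field such that additive homomorphisms from `A` to rings
`ℤ[1/M]`, `M` prime to `N`, detect the nonzero elements of `A`. -/
def LCX (N : ℕ) (G : Type u) [Group G] : Prop :=
  ∀ G0 : Subgroup G, G0.FG → ∃ G1 : Subgroup G, G0 ≤ G1 ∧ ∃ n : ℕ, 0 < n ∧
    ∀ g : G1, ¬IsOfFinOrder g → ∃ (F : Type u) (_ : Field F) (S : Set F), S.Finite ∧
      AddH (Subring.closure S) N ∧ CX (Subring.closure S) n g

/-- Every finitely generated subgroup of `G` is contained in a subgroup `G1` for which there are a finitely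
generated subring `A` of a field and an `n > 0` such that `CX A n g` holds for all `g ∈ G1` of infinite
order. -/
def LCR (G : Type u) [Group G] : Prop :=
  ∀ G0 : Subgroup G, G0.FG → ∃ G1 : Subgroup G, G0 ≤ G1 ∧
    ∃ (F : Type u) (_ : Field F) (S : Set F) (n : ℕ), S.Finite ∧ 0 < n ∧
      ∀ g : G1, ¬IsOfFinOrder g → CX (Subring.closure S) n g

/-- Some homomorphism `G → GL_k(F)`, `F` a field, maps no power `g ^ j`, `j > 0`, to a unipotent matrix. -/
def NoUnip {G : Type u} [Group G] (g : G) : Prop :=
  ∃ (F : Type u) (_ : Field F) (k : ℕ) (ρ : G →* Matrix (Fin k) (Fin k) F),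
    ∀ j : ℕ, 0 < j → ¬IsNilpotent (ρ g ^ j - 1)

/-- Some homomorphism `G → GL_k(ℤ[t_i, i ∈ σ])` maps `g` to an element of infinite order. -/
def InfP {G : Type u} [Group G] (g : G) : Prop :=
  ∃ (σ : Type u) (k : ℕ) (ρ : G →* Matrix (Fin k) (Fin k) (MvPolynomial σ ℤ)), ¬IsOfFinOrder (ρ g)

/-- The permutation `g` of the set of the infinite words over the alphabet `A` is given by finitely many
replacements `u y ↦ v y` of initial words (elements of the Higman–Thompson groups). -/
def IsV {A : Type} (g : Equiv.Perm (Stream' A)) : Prop :=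
  ∃ T : Set (List A × List A), T.Finite ∧
    ∀ x : Stream' A, ∃ p ∈ T, (∃ y, x = p.1 ++ₛ y) ∧ ∀ y : Stream' A, g (p.1 ++ₛ y) = p.2 ++ₛ y

/-- `f` is piecewise projective with finitely many pieces: at each point `f` has the value of one of
finitely many fractional linear maps. -/
def IsPP (f : ℝ ≃o ℝ) : Prop :=
  ∃ S : Set (Matrix (Fin 2) (Fin 2) ℝ), S.Finite ∧ (∀ M ∈ S, M.det ≠ 0) ∧
    ∀ x, ∃ M ∈ S, M 1 0 * x + M 1 1 ≠ 0 ∧ f x = (M 0 0 * x + M 0 1) / (M 1 0 * x + M 1 1)

end Pool.Agent.SM5
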