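import Pool.Agent.SM4.Cond
import Pool.Agent.SM5.Defs

/-!
# MP_e40716_gt (SM5): the conditions `LCX` and `LCR`, and the conclusions
-/

set_option autoImplicit false
set_option linter.unusedSectionVars false

open Matrix Pool.Agent.Lib25 Pool.Agent.KM Pool.Agent.SM1 Pool.Agent.SM2 Pool.Agent.SM3
open Pool.Agent.SM4
open Pool.Agent.SUR (ZM)

noncomputable section

namespace Pool.Agent.SM5

universe u v w

namespace BAS

theorem cw_mono {M r r' : ℕ} (hr : r ≤ r') {Z : Type u} [Group Z] {c : Z} (h : CW M r c) :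
    CW M r' c := by
  obtain ⟨v, W, hv, hW, hD⟩ := h
  exact ⟨v, W, hv, hW, Pool.Agent.SUR.t_LMONO _ _ _ _ _ _ _ hr hD⟩

theorem addH_nil (N : ℕ) : AddH (Subring.closure (∅ : Set (ULift.{u} ℚ))) N :=
  fun a ha => ⟨1, HOM.ps.{u}, one_pos, Nat.coprime_one_left _, HOM.ps_ne a ha⟩

theorem all_LEIG : Pool.Agent.SUR.s_LEIG.{u} := Pool.Agent.SUR.t_LEIG
  (Pool.Agent.SUR.t_VALG Pool.Agent.SUR.t_VALF Pool.Agent.SUR.t_NFH Pool.Agent.SUR.t_LCO)

/-- the bound for the degrees of the weights -/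
def bd (n : ℕ) : ℕ := (n + 2) * (n + 2) + (n + 2) + 2

/-- The weights. -/
theorem cw_of_cx {F : Type u} [Field F] {S : Set F} (hS : S.Finite) {n N : ℕ} (hn : 0 < n)
    {G : Type u} [Group G] {g : G} (hA : CharZero F → AddH (Subring.closure S) N)
    (h : CX (Subring.closure S) n g) :
    ∃ M : ℕ, 0 < M ∧ M.Coprime N ∧ CW M (bd n) (cel g) := by
  rcases h with ⟨f, hf⟩ | ⟨k, ρ, hk, hρ⟩
  · obtain ⟨ρ, hρ⟩ := rep_of_hom (cel g) f hf
    obtain ⟨M, hM, hMN, hW⟩ := cw_of_ct (N := N) (g := g) Set.finite_empty two_pos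
      ⟨fun _ => addH_nil N, 2, ρ, Or.inl rfl, hρ⟩
    exact ⟨M, hM, hMN, cw_mono (by unfold bd; nlinarith) hW⟩
  · obtain ⟨M, hM, hMN, hW⟩ := cw_of_ct (N := N) (g := g) hS hn ⟨hA, k, ρ, hk, hρ⟩
    exact ⟨M, hM, hMN, cw_mono (by unfold bd; nlinarith) hW⟩

theorem cw_dvd {N N' r : ℕ} (hN : N' ∣ N) {Z : Type u} [Group Z] {c : Z}
    (h : ∃ M : ℕ, 0 < M ∧ M.Coprime N ∧ CW M r c) : ∃ M : ℕ, 0 < M ∧ M.Coprime N' ∧ CW M r c := by
  obtain ⟨M, hM, hMN, hW⟩ := h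
  exact ⟨M, hM, hMN.coprime_dvd_right hN, hW⟩

end BAS

open BAS

/-- Degree `-1`. -/
theorem x_neg {G : Type u} [Group G] {Q : Type v} [Group Q] [Finite Q] (h : LCX (Nat.card Q) G)
    (π : G →* Q) : SurjSeen π := by
  have hL : LZW π := by
    intro G0 hG0
    obtain ⟨G1, hle, n, hn, hG⟩ := h G0 hG0
    refine ⟨G1, hle, bd n, fun g hg => ?_⟩
    obtain ⟨F, hF, S, hS, hA, hc⟩ := hG g (hg g rfl)
    exact cw_dvd (orderOf_dvd_natCard _) (cw_of_cx hS hn (fun _ => hA) hc)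
  intro x
  obtain ⟨n, s, hn, hs⟩ := all_FIN3 π hL x
  exact ⟨n, s, hn, by rw [map_nsmul]; exact hs⟩

/-- Degree `0`. -/
theorem x_zero {G : Type u} [Group G] {Q : Type v} [Group Q] [Finite Q] (h : LCX (Nat.card Q) G)
    (π : G →* Q) (f : G →* Multiplicative ℤ) : K0Seen π f := by
  have hL : LZ4 π f := by
    intro G0 hG0
    obtain ⟨G1, hle, n, hn, hG⟩ := h G0 hG0
    refine ⟨G1, hle, bd n, fun g hg => ?_⟩
    by_cases hfin : IsOfFinOrder g
    · right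
      intro c hc
      by_contra hfc
      exact hg ⟨g, c, hfin, hc, hfc, rfl⟩
    · left
      obtain ⟨F, hF, S, hS, hA, hc⟩ := hG g hfin
      exact cw_dvd (orderOf_dvd_natCard _) (cw_of_cx hS hn (fun _ => hA) hc)
  exact fun z => t_FIN4 all_FNS4 t_COL0 π f hL z

/-- The earlier condition. -/
theorem lcx_of_lct {N : ℕ} {G : Type u} [Group G] (h : LCT N G) : LCX N G := by
  intro G0 hG0
  obtain ⟨G1, hle, F, hF, S, n, hS, hn, hG⟩ := h G0 hG0
  refine ⟨G1, hle, n, hn, fun g hg => ?_⟩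
  obtain ⟨hA, k, ρ, hk, hρ⟩ := hG g hg
  by_cases hc : CharZero F
  · exact ⟨F, hF, S, hS, hA hc, Or.inr ⟨k, ρ, hk, hρ⟩⟩
  · refine ⟨ULift.{u} ℚ, inferInstance, ∅, Set.finite_empty, addH_nil N, Or.inl ?_⟩
    let ρF : Subgroup.centralizer {g} →* Matrix (Fin k) (Fin k) F :=
      (Pool.Agent.SUR.LWTx.inc (Subring.closure S) k).toMonoidHom.comp ρ
    obtain ⟨f, hf⟩ := all_LEIG F S hS k (Subgroup.centralizer {g}) (cel g) (REP4.cen g) ρF
      (fun z i j => (ρ z i j).2) fun j hj hnil => by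
        obtain ⟨p, hp⟩ := CharP.exists F
        have hp0 : p ≠ 0 := fun h0 => hc (by
          rw [h0] at hp
          exact CharP.charP_to_charZero F)
        have hpp : p.Prime := (CharP.char_is_prime_or_zero F p).resolve_right hp0
        obtain ⟨i, hi, hi1⟩ := Pool.Agent.SUR.LWTx.pow_eq_one p hpp k (ρF (cel g) ^ j) hnil
        refine hρ (isOfFinOrder_iff_pow_eq_one.2 ⟨j * i, Nat.mul_pos hj hi, ?_⟩)
        refine Pool.Agent.SUR.LWTx.inc_injective (Subring.closure S) k ?_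
        rw [map_pow, map_one, pow_mul]
        exact hi1
    exact ⟨f, fun h1 => hf (by rw [h1]; rfl)⟩

end Pool.Agent.SM5
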