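import Pool.Agent.SM5.Base
import Pool.Agent.PWG.WSP
import Pool.Agent.PWG.COM
import Pool.Agent.PWG.IND
import Pool.Agent.PWG.SKE
import Pool.Agent.PWG.INV
import Pool.Agent.PWG.POS
import Pool.Agent.THV.REB
import Pool.Agent.THV.GRP
import Pool.Agent.THV.DOM
import Pool.Agent.THV.EXP
import Pool.Agent.THV.RCL
import Pool.Agent.THV.ATL
import Pool.Agent.THV.ORD
import Pool.Agent.THV.AFX
import Pool.Agent.THV.AIN
import Pool.Agent.THV.AFI
import Pool.Agent.THV.PHI

/-!
# MP_e40716_gt (SM5): groups with the property `LCX`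
-/

set_option autoImplicit false
set_option linter.unusedSectionVars false

open Matrix Pool.Agent.Lib25 Pool.Agent.KM Pool.Agent.SM1 Pool.Agent.SM2 Pool.Agent.SM3
open Pool.Agent.SM4 Stream' Pointwise
open Pool.Agent.SUR (ZM)

noncomputable section

namespace Pool.Agent.SM5

universe u v w

namespace FAM

theorem infin {G : Type u} [Group G] (G₀ : Subgroup G) (g : G₀) (hg : ¬IsOfFinOrder g) :
    ¬IsOfFinOrder (g : G) := fun h => hg (Submonoid.isOfFinOrder_coe.1 h)

/-- restriction of the ring of coefficients -/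
def res {F : Type u} [Field F] (A : Subring F) {C : Type v} [Monoid C] {k : ℕ}
    (ρ : C →* Matrix (Fin k) (Fin k) F) (h : ∀ z i j, ρ z i j ∈ A) :
    C →* Matrix (Fin k) (Fin k) A where
  toFun z := Matrix.of fun i j => ⟨ρ z i j, h z i j⟩
  map_one' := by
    ext i j
    rw [Matrix.of_apply]
    change ρ 1 i j = _
    rw [map_one]
    by_cases hij : i = j
    · subst hij
      rw [Matrix.one_apply_eq, Matrix.one_apply_eq]
      rfl
    · rw [Matrix.one_apply_ne hij, Matrix.one_apply_ne hij]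
      rfl
  map_mul' z w := by
    ext i j
    rw [Matrix.of_apply]
    change ρ (z * w) i j = _
    rw [map_mul, Matrix.mul_apply, Matrix.mul_apply]
    rw [AddSubmonoidClass.coe_finset_sum]
    rfl

theorem res_fin {F : Type u} [Field F] (A : Subring F) {C : Type v} [Monoid C] {k : ℕ}
    (ρ : C →* Matrix (Fin k) (Fin k) F) (h : ∀ z i j, ρ z i j ∈ A) (c : C)
    (hc : ¬IsOfFinOrder (ρ c)) : ¬IsOfFinOrder (res A ρ h c) := by
  intro h1
  apply hc
  obtain ⟨n, hn, h2⟩ := isOfFinOrder_iff_pow_eq_one.1 h1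
  refine isOfFinOrder_iff_pow_eq_one.2 ⟨n, hn, ?_⟩
  rw [← map_pow] at h2 ⊢
  ext i j
  have h3 := congrArg (fun X : Matrix (Fin k) (Fin k) A => ((X i j : A) : F)) h2
  have h4 : ρ (c ^ n) i j = (((1 : Matrix (Fin k) (Fin k) A) i j : A) : F) := h3
  rw [h4]
  by_cases hij : i = j
  · subst hij
    rw [Matrix.one_apply_eq, Matrix.one_apply_eq]
    rfl
  · rw [Matrix.one_apply_ne hij, Matrix.one_apply_ne hij]
    rfl

/-- the entries of the elements of a finitely generated subgroup -/
theorem entries {G : Type u} [Group G] {F : Type v} [Field F] {k : ℕ}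
    (ρ : G →* Matrix (Fin k) (Fin k) F) (R : Subring F) (hR : ∀ g i j, ρ g i j ∈ R)
    (G0 : Subgroup G) (hG0 : G0.FG) :
    ∃ S : Set F, S.Finite ∧ S ⊆ R ∧ ∀ z ∈ G0, ∀ i j, ρ z i j ∈ Subring.closure S := by
  obtain ⟨T, rfl⟩ := hG0
  let S : Set F := ⋃ t ∈ (T : Set G), ((Set.range fun p : Fin k × Fin k => ρ t p.1 p.2) ∪
    Set.range fun p : Fin k × Fin k => ρ t⁻¹ p.1 p.2)
  refine ⟨S, ?_, ?_, ?_⟩
  · exact Set.Finite.biUnion T.finite_toSet fun t _ =>
      (Set.finite_range _).union (Set.finite_range _)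
  · intro a ha
    simp only [S, Set.mem_iUnion] at ha
    obtain ⟨t, _, ha⟩ := ha
    rcases ha with ⟨p, rfl⟩ | ⟨p, rfl⟩
    · exact hR _ _ _
    · exact hR _ _ _
  · have hS : ∀ z ∈ Subgroup.closure (T : Set G), (∀ i j, ρ z i j ∈ Subring.closure S) ∧
        ∀ i j, ρ z⁻¹ i j ∈ Subring.closure S := by
      intro z hz
      induction hz using Subgroup.closure_induction with
      | mem x hx =>
        exact ⟨fun i j => Subring.subset_closure
            (Set.mem_biUnion (Finset.mem_coe.2 hx) (Or.inl ⟨(i, j), rfl⟩)),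
          fun i j => Subring.subset_closure
            (Set.mem_biUnion (Finset.mem_coe.2 hx) (Or.inr ⟨(i, j), rfl⟩))⟩
      | one =>
        have h1 : ∀ i j, ρ 1 i j ∈ Subring.closure S := by
          intro i j
          rw [map_one, Matrix.one_apply]
          split_ifs
          · exact Subring.one_mem _
          · exact Subring.zero_mem _
        exact ⟨h1, by rw [inv_one]; exact h1⟩
      | mul x y _ _ hx hy =>
        have h1 : ∀ (a b : G), (∀ i j, ρ a i j ∈ Subring.closure S) →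
            (∀ i j, ρ b i j ∈ Subring.closure S) → ∀ i j, ρ (a * b) i j ∈ Subring.closure S := by
          intro a b ha hb i j
          rw [map_mul, Matrix.mul_apply]
          exact Subring.sum_mem _ fun l _ => Subring.mul_mem _ (ha i l) (hb l j)
        exact ⟨h1 x y hx.1 hy.1, by rw [_root_.mul_inv_rev]; exact h1 _ _ hy.2 hx.2⟩
      | inv x _ hx => exact ⟨hx.2, by rw [inv_inv]; exact hx.1⟩
    exact fun z hz => (hS z hz).1

/-- polynomial rings -/
theorem detZ (σ : Type u) :
    DetZ (algebraMap (MvPolynomial σ ℤ) (FractionRing (MvPolynomial σ ℤ))).range := by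
  let F := FractionRing (MvPolynomial σ ℤ)
  let f : MvPolynomial σ ℤ →+* F := algebraMap (MvPolynomial σ ℤ) F
  have hf : Function.Injective f := IsFractionRing.injective (MvPolynomial σ ℤ) F
  rintro ⟨_, a, rfl⟩ ha
  have ha0 : a ≠ 0 := by
    rintro rfl
    exact ha (Subtype.ext (map_zero f))
  obtain ⟨d, hd⟩ := MvPolynomial.ne_zero_iff.1 ha0
  let e : MvPolynomial σ ℤ ≃+ f.range :=
    AddEquiv.ofBijective f.rangeRestrict.toAddMonoidHom
      ⟨fun x y h => hf (congrArg Subtype.val h), fun y => by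
        obtain ⟨_, a, rfl⟩ := y
        exact ⟨a, rfl⟩⟩
  let ψ : MvPolynomial σ ℤ →+ ℤ :=
    { toFun := fun x => x.coeff d
      map_zero' := MvPolynomial.coeff_zero d
      map_add' := fun x y => MvPolynomial.coeff_add d x y }
  refine ⟨ψ.comp e.symm.toAddMonoidHom, ?_⟩
  have h1 : e.symm ⟨f a, a, rfl⟩ = a := by
    rw [AddEquiv.symm_apply_eq]
    rfl
  change MvPolynomial.coeff d (e.symm ⟨f a, a, rfl⟩) ≠ 0
  rw [h1]
  exact hd

open Pool.Agent.THV in
theorem all_PHI : s_PHI := by
  have hEXP : s_EXP := t_EXP t_REB t_DOM t_GRP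
  have hRCL : s_RCL := t_RCL t_REB
  have hATL : s_ATL := t_ATL t_REB t_DOM hRCL
  have hAIN : s_AIN := t_AIN t_GRP hEXP
  exact t_PHI t_GRP hEXP (t_ORD t_REB t_DOM t_GRP hRCL hATL) (t_AFX hEXP) hAIN
    (t_AFI t_REB t_DOM t_GRP hEXP hRCL hAIN)

end FAM

open FAM BAS

/-- Groups whose elements of infinite order are detected by representations. -/
theorem lcx_rep (N m : ℕ) (G : Type u) [Group G]
    (h : ∀ g : G, ¬IsOfFinOrder g → NoUnip g ∨ (TorSub m G ∧ InfP g)) : LCX N G := by
  intro G0 hG0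
  refine ⟨G0, le_rfl, m + 1, Nat.succ_pos m, fun g hg => ?_⟩
  have hg' : ¬IsOfFinOrder (g : G) := infin G0 g hg
  let i : Subgroup.centralizer {g} →* G := G0.subtype.comp (Subgroup.centralizer {g}).subtype
  have hi : Function.Injective i :=
    G0.subtype_injective.comp (Subgroup.centralizer {g}).subtype_injective
  rcases h g hg' with ⟨F, hF, k, ρ, hρ⟩ | ⟨hT, σ, k, ρ, hρ⟩
  · obtain ⟨S, hS, -, hent⟩ := entries ρ ⊤ (fun _ _ _ => Subring.mem_top _) G0 hG0
    obtain ⟨f, hf⟩ := all_LEIG F S hS k (Subgroup.centralizer {g}) (cel g) (REP4.cen g)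
      (ρ.comp i) (fun z a b => hent _ z.1.2 a b) (fun j hj => hρ j hj)
    exact ⟨ULift.{u} ℚ, inferInstance, ∅, Set.finite_empty, addH_nil N,
      Or.inl ⟨f, fun h1 => hf (by rw [h1]; rfl)⟩⟩
  · let F := FractionRing (MvPolynomial σ ℤ)
    let f : MvPolynomial σ ℤ →+* F := algebraMap (MvPolynomial σ ℤ) F
    have hf : Function.Injective f := IsFractionRing.injective (MvPolynomial σ ℤ) F
    let ρF : G →* Matrix (Fin k) (Fin k) F := (f.mapMatrix.toMonoidHom).comp ρ
    obtain ⟨S, hS, hSR, hent⟩ := entries ρF f.range (fun g a b => ⟨ρ g a b, rfl⟩) G0 hG0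
    refine ⟨F, inferInstance, S, hS, CLS.addH (detZ σ) hSR N,
      Or.inr ⟨k, res _ (ρF.comp i) (fun z a b => hent _ z.1.2 a b),
        Or.inr (INT.torH_mono (Nat.le_succ m) (hT _ i hi)), res_fin _ _ _ _ fun h1 => hρ ?_⟩⟩
    rw [isOfFinOrder_iff_pow_eq_one] at h1 ⊢
    obtain ⟨l, hl, h1⟩ := h1
    refine ⟨l, hl, ?_⟩
    have hinj : Function.Injective (f.mapMatrix (m := Fin k)) := by
      intro A B hAB
      funext a b
      exact hf (congrFun (congrFun hAB a) b)
    apply hinj
    rw [map_pow, map_one]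
    exact h1

/-- Subgroups of the automorphism groups of finitely generated residually torsion-free nilpotent groups. -/
theorem lcx_aut (N m : ℕ) (π : Type u) [Group π] (hπ : Group.FG π) (hR : Pool.Agent.SUR.RTN π)
    (hT : TorSub m (MulAut π)) (G : Subgroup (MulAut π)) : LCX N G :=
  lcx_of_lct (lct_sep N m G
    (sep_inj G.subtype G.subtype_injective
      ((Pool.Agent.SUR.t_RLSZ Pool.Agent.SUR.t_RGRF).2 π hπ hR))
    fun C _ i hi => hT C (G.subtype.comp i) (G.subtype_injective.comp hi))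

/-- Homomorphisms from the centralisers to the integers. -/
theorem lcx_hom (N : ℕ) {G : Type u} [Group G]
    (h : ∀ g : G, ¬IsOfFinOrder g → ∃ φ : Subgroup.centralizer {g} →* Multiplicative ℤ,
      φ (cel g) ≠ 1) : LCX N G := by
  intro G0 _
  refine ⟨⊤, le_top, 1, one_pos, fun g hg => ⟨ULift.{u} ℚ, inferInstance, ∅, Set.finite_empty,
    addH_nil N, Or.inl ?_⟩⟩
  obtain ⟨φ, hφ⟩ := h (g : G) (infin ⊤ g hg)
  let c : Subgroup.centralizer {g} →* Subgroup.centralizer {(g : G)} :=
    ((⊤ : Subgroup G).subtype.comp (Subgroup.centralizer {g}).subtype).codRestrict _ (fun z => by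
      have hz := Subgroup.mem_centralizer_singleton_iff.1 z.2
      refine Subgroup.mem_centralizer_singleton_iff.2 ?_
      exact congrArg (fun w : (⊤ : Subgroup G) => (w : G)) hz)
  exact ⟨φ.comp c, hφ⟩

/-- Groups with commensurating actions. -/
theorem lcx_comm (N : ℕ) (G : Type u) [Group G] (D : Type v) [MulAction G D] (M : Set D)
    (hM : ∀ g : G, (symmDiff M (g • M)).Finite)
    (h : ∀ g : G, ¬IsOfFinOrder g → ∀ n : ℕ, ∃ k : ℕ, n < (symmDiff M (g ^ k • M)).ncard) :
    LCX N G :=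
  lcx_hom N fun g hg => Pool.Agent.PWG.t_COM Pool.Agent.PWG.t_IND Pool.Agent.PWG.t_SKE
    Pool.Agent.PWG.t_INV Pool.Agent.PWG.t_POS G D M hM g (h g hg)

/-- Groups which act on spaces with walls such that the elements of infinite order have unbounded orbits. -/
theorem lcx_walls (N : ℕ) (G : Type u) [Group G] (h : Pool.Agent.PWG.Walls G) : LCX N G := by
  obtain ⟨D, hD, M, hM, h1⟩ := Pool.Agent.PWG.commWalls_of_walls G h
  exact lcx_comm N G D M hM h1

/-- Subgroups of the Higman–Thompson groups. -/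
theorem lcx_v (N : ℕ) (A : Type) [Finite A] [Nontrivial A] (G : Subgroup (Equiv.Perm (Stream' A)))
    (hG : ∀ g ∈ G, IsV g) : LCX N G :=
  lcx_hom N fun g hg => all_PHI A G hG g hg

end Pool.Agent.SM5
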