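import Pool.Agent.SM3.St
import Pool.Agent.SM1.St2
import Pool.Agent.Lib_helper25.Final0

/-!
# MP_e40716_gt (SM5): degree `0`, several homomorphisms to `ℤ` at once: statements

Module `X` proves `theorem t_X (h : S_Y) ... : S_X` in `Pool/Agent/SM5/P_X.lean`, namespace
`Pool.Agent.SM5`; the hypotheses are the statements named in the doc string, nothing else. Auxiliary
lemmas in the namespace `Pool.Agent.SM5.X`. Models: `Pool/Agent/SM3/P_FCZ.lean`, `P_SUM4.lean`, `P_NUM4.lean`,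
`Pool/Agent/SM1/P_TR2.lean` (copy the proof and change it; the `open` lines are the same).
-/

set_option autoImplicit false
set_option linter.unusedSectionVars false

open Matrix Pool.Agent.Lib25 Pool.Agent.KM Pool.Agent.SM1 Pool.Agent.SM2 Pool.Agent.SM3
open Pool.Agent.SUR (ZM)

noncomputable section

namespace Pool.Agent.SM5

universe u v w

/-- RGA (120 lines; hypothesis `S_UNI.{u, w}` of SM1/St.lean). At an element `g` on which all `F i` vanish the
invariant of `E.map (jf f)` is additive in `f`.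

PROOF. Model: the proof of `t_FCZ` (`Pool/Agent/SM3/P_FCZ.lean`, import it and `open FCZ`). Let `A = ZMod (p ^ K)`,
`P = G × C_p`, `γ = (g, q g)`, `f' = f ∘ fst`, `τ_f = jf A f'`, `δ_f = del f'`, `ε = eps`, `e = E.map (red ..)`,
`e0 = e.map (i0 ..)`, `e1 = e.map (i1 ..)`, `θ = e1 e0 + (1 - e1)(1 - e0)` over `A[P]`: they do not depend on `f`.
With `E' = rd (p^K) (E.map (jf ℤ f)) = e.map (jf A f)`: `E0 p E' = e0.map τ_f`, `E1 q E' = e1.map τ_f`,
`th q E' = θ.map τ_f`, and `φ = (Ring.inverse (th q E')).map ε` is an inverse of `θ` (so `φ = Ring.inverse θ`, it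
does not depend on `f` either), `Ring.inverse (th q E') = φ.map τ_f`, `(th q E').map DL = (θ.map δ_f).map τ_f`,
`OM q E' = τ_f (tr (e0 φ (θ.map δ_f)))` (all this is in the proof of `t_FCZ`, up to `hOM`; it does not use the
hypothesis on the centraliser). As `f' γ = f g = 1` (for `f = F i` and for `f` itself:
`toAdd (f g) = ∑ l i * toAdd (F i g) = 0`), `tauL_jf` gives
`rg q E' g = tau γ (tr (e0 φ (θ.map δ_f)))`. Finally `del f' = ∑ i, l i • del (F i)'` (on singles, `del_single`), and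
`tau γ ∘ tr` is additive. -/
def S_RGA : Prop := ∀ {G : Type u} [Group G] {b : ℕ} (F : Fin b → G →* Multiplicative ℤ)
  (l : Fin b → ℤ) (f : G →* Multiplicative ℤ),
  (∀ c : G, Multiplicative.toAdd (f c) = ∑ i, l i * Multiplicative.toAdd (F i c)) →
  ∀ {ι : Type w} [Fintype ι] [DecidableEq ι] (E : Matrix ι ι (MonoidAlgebra ℤ G)), E * E = E →
  ∀ {p K : ℕ}, p.Prime → ∀ (q : G →* Cy p) (g : G), (∀ i, F i g = 1) →
    ∑ i, (l i : ZMod (p ^ K)) * rg q (rd (p ^ K) (E.map (jf ℤ (F i)))) g =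
      rg q (rd (p ^ K) (E.map (jf ℤ f))) g

/-- SUM5 (280 lines; hypotheses those of `t_SUM4` (`S_FUG.{u, 0, w}`, `S_FUG.{u, u, w}`, `S_R2C.{u, w}`,
`S_LFT.{u, w}`, `S_FS2.{u, w}`, `S_CHI`, `S_FCZ.{u, w}`) and `S_RGA.{u, w}`). The theorem `S_SUM4` for a
linear combination of several `f`.

PROOF. ADAPTATION of `t_SUM4` (`Pool/Agent/SM3/P_SUM4.lean`). `E i = E0'.map (jf ℤ (F i))` is idempotent; `X i` from
`S_LFT (E i)`, `F1 i` from `S_FS2 (X i)`; `f0 = ∏ i, F i ^ l i` (`MonoidHom` to a commutative group), so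
`toAdd (f0 c) = ∑ l i * toAdd (F i c)`, and `F2` from `S_FCZ f0 E0'`; `F0 = F2 ∪ ⋃ i, F1 i`. Let
`R p K g = ∑ i, l i * rg q (rd (p^K) (E i)) g`, `q = (cN N p _).comp φ`. For `g` with `φ g = gn N` there are
`v > 0`, `a` with `v * R p K g = a` for all `p ∣ N`, `K`, and `a = 0` if `g` is not conjugate to an element of
`F0`: (a) if there is `CG M r g`: as in `t_SUM4` for each `i` numbers `v i > 0`, `a i` (with `kapM W (X i)`);
`v = ∏ i, v i`, `a = ∑ i, l i * (∏ j ∈ univ.erase i, v j) * a i`. (b) Otherwise all `F i g = 1` and `f0` vanishes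
on the centraliser of `g`: `S_RGA` with `f = f0` gives `R p K g = rg q (rd (p^K) (E0'.map (jf ℤ f0))) g`, and this
is `a` from `S_FCZ` (`v = 1`). The rest of the proof of `t_SUM4` is linear in the numbers `rg` (compatibility
`hcomp`, vanishing outside `F`, push-forward `hpush`: prove the first and the third for each `i`; the
constants `P0`, `a0`, `D = P0 * P0` as there). -/
def S_SUM5 : Prop := ∀ {G : Type u} [Group G] (N : ℕ), 1 < N → ∀ (φ : G →* Cy N) {b : ℕ}
  (F : Fin b → G →* Multiplicative ℤ) (l : Fin b → ℤ) (r : ℕ),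
  (∀ g : G, φ g = gn N → (∃ M : ℕ, 0 < M ∧ M.Coprime N ∧ CG M r g) ∨
    ((∀ i, F i g = 1) ∧
      ∀ c : G, c * g = g * c → ∑ i, l i * Multiplicative.toAdd (F i c) = 0)) →
  ∀ {ι : Type w} [Fintype ι] [DecidableEq ι] (E : Matrix ι ι (MonoidAlgebra ℤ G)), E * E = E →
  ∃ (D : ℕ) (a : ℤ), 0 < D ∧ ∀ (p K : ℕ) (_ : p.Prime) (hpN : p ∣ N),
    (D : ZMod (p ^ K)) * ∑ i, (l i : ZMod (p ^ K)) *
      rg (cN N p hpN) (rd (p ^ K) (psh φ (E.map (jf ℤ (F i))))) (gn N) = (a : ZMod (p ^ K))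

/-- Every element of infinite order has a weight of degree at most `r` in its centraliser, with values in
`ℤ[1/M]`, `M` prime to the order of `π g`. -/
def ZWA {G : Type u} [Group G] {Q : Type v} [Group Q] (π : G →* Q) (r : ℕ) : Prop :=
  ∀ g : G, ¬IsOfFinOrder g → ∃ M : ℕ, 0 < M ∧ M.Coprime (orderOf (π g)) ∧ CW M r (cel g)

/-- NUM5 (220 lines; hypotheses those of `t_NUM4` with `S_SUM5.{u, v}` in place of `S_SUM4.{u, v}`:
`S_SUM5.{u, v}`, `S_RHO.{v}`, `S_RES.{u, u, v}`, `S_RES.{v, 0, v}`, `S_RCM.{u, v}`, `S_TRV.{v}`, `S_TRA.{u}`,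
`S_CWR.{u}`, `S_RSF.{u, v, 0}`).

PROOF. ADAPTATION of `t_NUM4` (`Pool/Agent/SM3/P_NUM4.lean`). `key`: for `F0 : IdemMat (MonoidAlgebra ℤ G)` there is
`D > 0` with `D • ρ (Kn θ' (Kg π (∑ i, l i • mk (K0.map (jf ℤ (F i)) (K0.of F0))))) = 0`: for each `i` the
computation of `t_NUM4` gives `ρ (Kn θ' (Kg π (mk (K0.map (jf ℤ (F i)) (K0.of F0))))) = tcl N (x i)` with
`x i p K = rg (cN ..) (rd (p^K) (psh q ((blow θ F0.mat).map (jf ℤ ((F i).comp subtype))))) (gn N)`; `tcl N` is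
additive, so the sum is `tcl N (∑ i, l i • x i)`, and `tcl_nsmul` with `D`, `a` from `S_SUM5` for
`q`, `fun i => (F i).comp (φ.range.comap π).subtype`, `blow θ F0.mat`. The hypothesis of `S_SUM5` for `g` with
`q g = gn N`, that is `π g = h`: if `g` has infinite order, `ZWA` (with `S_CWR`, `S_TRA` as in `t_NUM4`); if `g` has
finite order, `F i g = 1` (`Multiplicative ℤ` is torsion free) and the sum vanishes on the centraliser by the
assumption on `h`. The rest is the same. -/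
def S_NUM5 : Prop := ∀ {G : Type u} [Group G] {Q : Type v} [Group Q] [Finite Q] (π : G →* Q),
  Function.Surjective π → ∀ {b : ℕ} (F : Fin b → G →* Multiplicative ℤ) (r : ℕ), ZWA π r →
  ∀ (z : K0 (MonoidAlgebra ℤ G)) (l : Fin b → ℤ) (X : K0 (LG ℤ Q)) (m : ℕ),
  KNegOne.mk X =
    m • ∑ i, l i • KNegOne.mk (K0.map (mapL (grm π)) (K0.map (jf ℤ (F i)) z)) →
  ∀ w : ∀ (p : ℕ) [Fact p.Prime], Q → ℚ_[p], Triv X w →
  ∃ y : Q → ℚ, ∀ (p : ℕ) [Fact p.Prime] (h : Q), p ∣ orderOf h →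
    (∀ g c : G, IsOfFinOrder g → c * g = g * c → π g = h →
      ∑ i, l i * Multiplicative.toAdd (F i c) = 0) →
    w p h = (y h : ℚ_[p])

/-- TR3 (ADAPTATION of `t_TR2`, SM1/P_TR2.lean; no hypotheses). As `S_TR2`, but `T` is only closed under the
powers prime to the order.

PROOF. The proof of `t_TR2`; the only place is `hTp h0 hT0 _` in `main` (the power is the value of a unit
`u0 : (ZMod n)ˣ`, `orderOf h0 = n`: `ZMod.val_coe_unit_coprime`). -/
def S_TR3 : Prop := ∀ {G : Type v} [Group G] (N : ℕ → ℕ)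
  (x : ∀ n : ℕ, ℕ → K0 (LaurentPolynomial (MonoidAlgebra ℤ (Multiplicative (ZMod n))))),
  (∀ n, 0 < n → 0 < N n) → (∀ (n : ℕ) [NeZero n], LocN.{v} n (N n) (x n)) →
  ∀ (L : ℕ → G → ℚ), AdmM L → ∀ (T : Set G), (∀ h ∈ T, ∀ g, g * h * g⁻¹ ∈ T) →
  (∀ h ∈ T, ∀ n : ℕ, n.Coprime (orderOf h) → h ^ n ∈ T) →
  (∀ h ∈ T, ∀ p ∈ (orderOf h).primeFactors, L p h = 0) →
  ∀ c : IdxM G →₀ ℤ,
  (∀ w : ∀ (p : ℕ) [Fact p.Prime], G → ℚ_[p],
    Triv (∑ j ∈ c.support, c j • K0.map (mapL (grm j.φ)) (x j.n j.p)) w →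
    ∃ y : G → ℚ, ∀ (p : ℕ) [Fact p.Prime] (h : G), IsOfFinOrder h → p ∣ orderOf h → h ∉ T →
      w p h = (y h : ℚ_[p])) →
  (c.sum fun j m => (m : ℚ) * L j.p (j.φ (gn j.n))) = 0

open scoped Classical in
/-- CLA (70 lines; no hypotheses). The restriction of a combination of admissible functions to the
elements `h` such that the conjugates of `⟨h⟩` are those of `⟨h0⟩` is admissible.

PROOF. `cz h` (Lib_helper25/Final0.lean) is the set of the conjugates of `⟨h⟩`. `cz (x h x⁻¹) = cz h`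
(`cz_of_isConj`); if `⟨h⟩ = ⟨h'⟩`, then `cz h = cz h'` (`x⟨h⟩x⁻¹ = x⟨h'⟩x⁻¹`, `MonoidHom.map_zpowers`); and
`⟨h ^ a⟩ = ⟨h⟩` if `a` is prime to the order of `h` (finite). -/
def S_CLA : Prop := ∀ {G : Type v} [Group G] {b : ℕ} (L : Fin b → ℕ → G → ℚ), (∀ i, AdmM (L i)) →
  ∀ (μ : Fin b → ℚ) (h0 : G),
    AdmM (fun p h => if cz h = cz h0 then ∑ i, μ i * L i p h else 0)

/-- ORT (80 lines; no hypotheses). Linear algebra: integral vectors which span the orthogonal complement of `D`.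

PROOF. `V = {w : Fin b → ℚ | ∀ d ∈ D, ∑ d i * w i = 0}` is a subspace, `e : Fin r → V` a basis
(`Module.finBasis ℚ V`), `v a = n a • e a` integral for some natural number `n a > 0` (common denominator of the
coordinates). A linear projection `P` from `Fin b → ℚ` onto `V` (`Submodule.exists_isCompl`,
`LinearMap.exists_leftInverse_of_injective` for the inclusion); `μ a k` = the `a`-th coordinate of `P (e_k)`
divided by `n a`, `e_k = Pi.single k 1`. For `w ∈ V`:
`w = ∑ a, (a-th coordinate of w) • e a`, and the coordinate is `∑ k, w k * (a-th coordinate of P e_k)`. -/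
def S_ORT : Prop := ∀ (b : ℕ) (D : AddSubgroup (Fin b → ℤ)), ∃ (r : ℕ) (v : Fin r → Fin b → ℤ)
  (μ : Fin r → Fin b → ℚ), (∀ a, ∀ d ∈ D, ∑ i, v a i * d i = 0) ∧
  ∀ w : Fin b → ℚ, (∀ d ∈ D, ∑ i, (d i : ℚ) * w i = 0) →
    ∀ i, w i = ∑ a, (∑ k, μ a k * w k) * (v a i : ℚ)

end Pool.Agent.SM5
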