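import Pool.Agent.SM5.St
import Pool.Agent.KM.P_TRL
import Pool.Agent.SM1.St3

/-!
# MP_e40716_gt (SM5): degree `0`, several homomorphisms to `ℤ` at once: the tuple theorem
-/

set_option autoImplicit false
set_option linter.unusedSectionVars false

open Matrix Pool.Agent.Lib25 Pool.Agent.KM Pool.Agent.SM1 Pool.Agent.SM2 Pool.Agent.SM3
open Pool.Agent.SUR (ZM)

noncomputable section

namespace Pool.Agent.SM5

universe u v w

/-- The subgroup of `K_{-1}(ℤ[Q])^b` generated by the tuples `(F_i(c) e)_i`, `e` in the image of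
`K_{-1}(ℤ[H])`, `H ≤ G` finite, `c` in the centraliser of `H`. -/
def UF {G : Type u} [Group G] {Q : Type v} [Group Q] (π : G →* Q) {b : ℕ}
    (F : Fin b → G →* Multiplicative ℤ) : AddSubgroup (Fin b → KNegOne (MonoidAlgebra ℤ Q)) :=
  AddSubgroup.closure {v | ∃ (H : Subgroup G) (_ : Finite H) (c : G)
    (e : KNegOne (MonoidAlgebra ℤ H)), (∀ x ∈ H, c * x = x * c) ∧
      v = fun i => Multiplicative.toAdd (F i c) • Kg (π.comp H.subtype) e}

/-- The tuple theorem for surjective `π`. -/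
def S_FNS5 : Prop := ∀ {G : Type u} [Group G] {Q : Type v} [Group Q] [Finite Q] (π : G →* Q),
  Function.Surjective π → ∀ {b : ℕ} (F : Fin b → G →* Multiplicative ℤ) (r : ℕ), ZWA π r →
  ∀ z : K0 (MonoidAlgebra ℤ G), ∃ n : ℕ, 0 < n ∧ (fun i => n • Kg π (ddf (F i) z)) ∈ UF π F

end Pool.Agent.SM5
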